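import Mathlib

/-! Distinct perimeters (MP_588c6d_co): definitions and module statements.
Target: every set of `n` points of the plane spans at least `n exp(- C sqrt(log n))` distinct
perimeters. -/

set_option autoImplicit false

open Finset

namespace Pool.Agent.H62.Per

/-- the plane (coordinates) -/
abbrev Pl : Type := ℝ × ℝ

/-- Euclidean distance -/
noncomputable def dd (p q : Pl) : ℝ := Real.sqrt ((p.1 - q.1) ^ 2 + (p.2 - q.2) ^ 2)

/-- perimeter of a triple -/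
noncomputable def pr (a y x : Pl) : ℝ := dd a y + dd a x + dd y x

/-- the set of perimeters of the triples of distinct points of `P` -/
noncomputable def perims (P : Finset Pl) : Finset ℝ :=
  ((P ×ˢ P ×ˢ P).filter (fun t => t.1 ≠ t.2.1 ∧ t.1 ≠ t.2.2 ∧ t.2.1 ≠ t.2.2)).image
    (fun t => pr t.1 t.2.1 t.2.2)

/-- FINAL THEOREM -/
def MAIN : Prop :=
  ∃ C : ℝ, 0 < C ∧ ∀ P : Finset Pl, 3 ≤ P.card →
    (P.card : ℝ) * Real.exp (-C * Real.sqrt (Real.log P.card)) ≤ (perims P).card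

/-! ### The relation: `x` and `y` are on the same nondegenerate branch of a hyperbola with foci
`p`, `q`, and are not symmetric with respect to the line `p q`. -/

/-- parameters of a nondegenerate branch `{x | dd p x - dd q x = h}` -/
def ND (p q : Pl) (h : ℝ) : Prop := h ≠ 0 ∧ |h| < dd p q

/-- the relation (note that `ND p q h` implies `p ≠ q`) -/
def Rel (p q x y : Pl) : Prop :=
  x ≠ y ∧ dd p x - dd q x = dd p y - dd q y ∧ ND p q (dd p x - dd q x) ∧ dd p x ≠ dd p y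

/-- number of (ordered) pairs of distinct points of `P` with the same colour -/
noncomputable def prs (P : Finset Pl) (χ : Pl → ℕ) : ℕ :=
  (P.offDiag.filter (fun s => χ s.1 = χ s.2)).card

open Classical in
/-- number of quadruples `((x, y), (p, q))` with `χ x = χ y`, `ψ p = ψ q` and `Rel p q x y` -/
noncomputable def NN (P : Finset Pl) (χ ψ : Pl → ℕ) : ℕ :=
  ((P.offDiag ×ˢ P.offDiag).filter (fun s => χ s.1.1 = χ s.1.2 ∧ ψ s.2.1 = ψ s.2.2 ∧
    Rel s.2.1 s.2.2 s.1.1 s.1.2)).card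

/-- MODULE SYM -/
def SYM : Prop := ∀ p q x y : Pl, Rel p q x y → Rel x y p q

/-! ### Splitting lemma (linear algebra; plays the role of the polynomial ham sandwich theorem) -/

/-- scalar product -/
def sp {d : ℕ} (f v : Fin d → ℝ) : ℝ := ∑ i, f i * v i

open Classical in
/-- number of pairs of distinct points of `X` with the same colour, on the same side of `f` -/
noncomputable def TT {d : ℕ} {κ : Type} (X : Finset Pl) (v : Pl → Fin d → ℝ) (χ : Pl → κ)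
    (f : Fin d → ℝ) : ℕ :=
  (X.offDiag.filter (fun s => χ s.1 = χ s.2 ∧ 0 < sp f (v s.1) * sp f (v s.2))).card

open Classical in
/-- number of pairs of distinct points of `X` with the same colour -/
noncomputable def EE {κ : Type} (X : Finset Pl) (χ : Pl → κ) : ℕ :=
  (X.offDiag.filter (fun s => χ s.1 = χ s.2)).card

/-- MODULE HAM1: the case of vectors in general position -/
def HAM1 : Prop :=
  ∀ (d : ℕ), 1 ≤ d → ∀ (κ : Type) (X : Finset Pl) (v : Pl → Fin d → ℝ) (χ : Pl → κ),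
    (∀ S ⊆ X, S.card = d → LinearIndependent ℝ (fun s : S => v s)) →
    ∃ f : Fin d → ℝ, f ≠ 0 ∧ 2 * (TT X v χ f : ℝ) ≤ EE X χ + (X.card : ℝ) ^ 2 / d

/-- MODULE HAM2: HAM1 → HAM (perturbation and compactness) -/
def HAM : Prop :=
  ∀ (d : ℕ), 1 ≤ d → ∀ (κ : Type) (X : Finset Pl) (v : Pl → Fin d → ℝ) (χ : Pl → κ),
    ∃ f : Fin d → ℝ, f ≠ 0 ∧ 2 * (TT X v χ f : ℝ) ≤ EE X χ + (X.card : ℝ) ^ 2 / d

/-- bivariate polynomials of degree less than `m` in each variable: coefficient arrays -/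
abbrev Arr (m : ℕ) : Type := Fin m → Fin m → ℝ

/-- evaluation -/
noncomputable def ev {m : ℕ} (h : Arr m) (p : Pl) : ℝ :=
  ∑ i, ∑ j, h i j * p.1 ^ (i : ℕ) * p.2 ^ (j : ℕ)

/-- MODULE PART (from HAM): `J = 2 I` polynomials, `fs j` of degree `< m j` in each variable
(`m (2 i) = m (2 i + 1) = 2 ^ i * (I - i)`) -/
def PART : Prop :=
  ∀ (I : ℕ) (C : Finset Pl), ∃ (m : Fin (2 * I) → ℕ) (fs : ∀ j, Arr (m j)), (∀ j, fs j ≠ 0) ∧
    ∑ j, m j ≤ 4 * 2 ^ I ∧
    ((C.offDiag.filter (fun s => ∀ j, 0 < ev (fs j) s.1 * ev (fs j) s.2)).card : ℝ) ≤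
      7 * (C.card : ℝ) ^ 2 / 4 ^ I

/-! ### Geometry of the branches -/

/-- MODULE PARAM -/
def PARAM : Prop :=
  ∀ (p q : Pl) (h : ℝ), ND p q h → ∃ (c0 c1 c2 : Pl) (ζ : Pl → ℝ),
    c1.1 * c2.2 - c1.2 * c2.1 ≠ 0 ∧
    (∀ x, dd p x - dd q x = h → 0 < ζ x ∧ x = c0 + ζ x • c1 + (ζ x)⁻¹ • c2) ∧
    (∀ z : ℝ, 0 < z → dd p (c0 + z • c1 + z⁻¹ • c2) - dd q (c0 + z • c1 + z⁻¹ • c2) = h)

/-- MODULE CROSS (from PARAM): a branch on which no `fs j` vanishes identically meets the zero sets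
in at most `4 (m 0 + m 1 + ...)` points, and is cut in at most `4 (m 0 + m 1 + ...) + 1` pieces. -/
def CROSS : Prop :=
  ∀ (J : ℕ) (m : Fin J → ℕ) (fs : ∀ j, Arr (m j)) (p q : Pl) (h : ℝ), ND p q h →
    (∀ j, ∃ x, dd p x - dd q x = h ∧ ev (fs j) x ≠ 0) →
    (∀ S : Finset Pl, (∀ x ∈ S, dd p x - dd q x = h ∧ ∃ j, ev (fs j) x = 0) →
      S.card ≤ 4 * ∑ j, m j) ∧
    ∃ ι : Pl → ℕ, (∀ x, ι x ≤ 4 * ∑ j, m j) ∧
      ∀ x y, dd p x - dd q x = h → dd p y - dd q y = h → (∀ j, ev (fs j) x ≠ 0) →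
        (∀ j, ev (fs j) y ≠ 0) → ι x = ι y → ∀ j, 0 < ev (fs j) x * ev (fs j) y

/-- MODULE TWO (from PARAM): branches with different foci have at most 5 common points. -/
def TWO : Prop :=
  ∀ (p q p' q' : Pl) (h h' : ℝ), ND p q h → ND p' q' h' →
    ¬ ((p' = p ∧ q' = q) ∨ (p' = q ∧ q' = p)) →
    ∀ S : Finset Pl, (∀ x ∈ S, dd p x - dd q x = h ∧ dd p' x - dd q' x = h') → S.card ≤ 5

/-- MODULE EXC (from PARAM and TWO): few branches are contained in the zero sets. -/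
def EXC : Prop :=
  ∀ (J : ℕ) (m : Fin J → ℕ) (fs : ∀ j, Arr (m j)), (∀ j, fs j ≠ 0) →
    ∀ Γ : Finset (Pl × Pl × ℝ),
    (∀ γ ∈ Γ, 0 < γ.2.2 ∧ ND γ.1 γ.2.1 γ.2.2 ∧
      ∃ j, ∀ x, dd γ.1 x - dd γ.2.1 x = γ.2.2 → ev (fs j) x = 0) →
    Γ.card ≤ ∑ j, (4 * m j + 1)

/-! ### Counting -/

/-- MODULE REF (from PART, CROSS, EXC): refinement of a colouring. -/
def REF : Prop :=
  ∀ (P : Finset Pl) (χ ψ : Pl → ℕ) (I : ℕ), 1 ≤ I → ∃ χ' : Pl → ℕ,
    (prs P χ' : ℝ) ≤ 7 * ((prs P χ : ℝ) + P.card) / 4 ^ I ∧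
    NN P χ ψ ≤ 4 * (18 * 2 ^ I) * (NN P χ' ψ + 2 * P.card * prs P ψ) +
      2 * (18 * 2 ^ I) * (prs P χ + P.card)

/-- MODULE START -/
def START : Prop :=
  ∀ P : Finset Pl, 9 ≤ P.card → 4 * ((perims P).card + 2) ≤ P.card →
    P.card ^ 4 ≤ 2 * (perims P).card * (NN P (fun _ => 0) (fun _ => 0) + 4 * P.card ^ 3)

/-- MODULE END (from TWO) -/
def END : Prop :=
  ∀ (P : Finset Pl) (χ ψ : Pl → ℕ),
    (NN P χ ψ) ^ 2 ≤ prs P χ * (5 * P.card * (prs P ψ) ^ 2 + 2 * prs P ψ * prs P χ)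

/-- MODULE ITER (from SYM, REF, START, END) is `MAIN`. -/
def ITER : Prop := SYM → REF → START → END → MAIN

end Pool.Agent.H62.Per
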