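import Pool.Agent.H62.Per.Defs

/-! Distinct perimeters (MP_588c6d_co): the linear lower bound. Additional definitions and module
statements. -/

set_option autoImplicit false

open Finset

namespace Pool.Agent.H62.Per

/-- FINAL THEOREM, linear version -/
def LINEAR : Prop :=
  ∃ c : ℝ, 0 < c ∧ ∀ P : Finset Pl, 3 ≤ P.card → c * (P.card : ℝ) ≤ (perims P).card

/-- MODULE CROSS2 (from PARAM): as CROSS, but the pieces are connected subsets of the complement of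
the zero sets. -/
def CROSS2 : Prop :=
  ∀ (J : ℕ) (m : Fin J → ℕ) (fs : ∀ j, Arr (m j)) (p q : Pl) (h : ℝ), ND p q h →
    (∀ j, ∃ x, dd p x - dd q x = h ∧ ev (fs j) x ≠ 0) →
    (∀ S : Finset Pl, (∀ x ∈ S, dd p x - dd q x = h ∧ ∃ j, ev (fs j) x = 0) →
      S.card ≤ 4 * ∑ j, m j) ∧
    ∃ ι : Pl → ℕ, (∀ x, ι x ≤ 4 * ∑ j, m j) ∧
      ∀ x y, dd p x - dd q x = h → dd p y - dd q y = h → (∀ j, ev (fs j) x ≠ 0) →
        (∀ j, ev (fs j) y ≠ 0) → ι x = ι y →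
        ∃ T : Set Pl, IsPreconnected T ∧ x ∈ T ∧ y ∈ T ∧ ∀ z ∈ T, ∀ j, ev (fs j) z ≠ 0

/-- affine function defining a line -/
def lin (u v w : ℝ) (p : Pl) : ℝ := u * p.1 + v * p.2 + w

/-- MODULE LINEX: a line meets at most `2 (m 0 + m 1 + ...) + 1` connected components of the
complement of the zero sets. -/
def LINEX : Prop :=
  ∀ (J : ℕ) (m : Fin J → ℕ) (fs : ∀ j, Arr (m j)) (u v w : ℝ), (u ≠ 0 ∨ v ≠ 0) →
    ∀ S : Finset Pl, (∀ x ∈ S, lin u v w x = 0 ∧ ∀ j, ev (fs j) x ≠ 0) →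
      (∀ x ∈ S, ∀ y ∈ S, x ≠ y → ¬ ∃ T : Set Pl, IsPreconnected T ∧ x ∈ T ∧ y ∈ T ∧
        ∀ z ∈ T, ∀ j, ev (fs j) z ≠ 0) →
      S.card ≤ 2 * ∑ j, m j + 1

/-- orientation -/
def ori (x y p : Pl) : ℝ := (y.1 - x.1) * (p.2 - x.2) - (y.2 - x.2) * (p.1 - x.1)

/-- MODULE EXCL: the two chords are not opposite sides of a convex quadrilateral. -/
def EXCL : Prop :=
  ∀ p q x y : Pl, 0 < ori x y p * ori x y q → 0 < ori p q x * ori p q y →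
    dd p x - dd q x ≠ dd p y - dd q y

/-- colours separated by a line: there are two different points of `P` of this colour which are not
strictly on the same side of the line -/
noncomputable def sepcol (P : Finset Pl) (ψ : Pl → ℕ) (u v w : ℝ) : Finset ℕ :=
  (P.offDiag.filter (fun s => ψ s.1 = ψ s.2 ∧ lin u v w s.1 * lin u v w s.2 ≤ 0)).image
    (fun s => ψ s.1)

/-- every line separates at most `k` colours -/
def CrLe (P : Finset Pl) (ψ : Pl → ℕ) (k : ℝ) : Prop :=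
  ∀ u v w : ℝ, (u ≠ 0 ∨ v ≠ 0) → ((sepcol P ψ u v w).card : ℝ) ≤ k

open Classical in
/-- quadruples `((x, y), (p, q))` of `NN` such that `p`, `q` are strictly on different sides of the
line `x y` -/
noncomputable def NO (P : Finset Pl) (χ ψ : Pl → ℕ) : ℕ :=
  ((P.offDiag ×ˢ P.offDiag).filter (fun s => χ s.1.1 = χ s.1.2 ∧ ψ s.2.1 = ψ s.2.2 ∧
    Rel s.2.1 s.2.2 s.1.1 s.1.2 ∧ ori s.1.1 s.1.2 s.2.1 * ori s.1.1 s.1.2 s.2.2 < 0)).card

/-- MODULE ARMS (from SYM, EXCL) -/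
def ARMS : Prop :=
  ∀ (P : Finset Pl) (χ ψ : Pl → ℕ) (cχ cψ : ℝ), CrLe P χ cχ → CrLe P ψ cψ →
    (NN P χ ψ : ℝ) ≤ 2 * NO P χ ψ + 4 * Real.sqrt (2 * cψ * prs P ψ) * prs P χ +
      3 * Real.sqrt (2 * cχ * prs P χ) * prs P ψ

/-- MODULE REF2 (from PART, CROSS2, EXC, LINEX) -/
def REF2 : Prop :=
  ∀ (P : Finset Pl) (χ ψ : Pl → ℕ) (cψ : ℝ) (I : ℕ), 1 ≤ I → CrLe P ψ cψ → ∃ ψ' : Pl → ℕ,
    (prs P ψ' : ℝ) ≤ 14 * prs P ψ / 4 ^ I ∧
    CrLe P ψ' (cψ * (18 * 2 ^ I)) ∧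
    (NO P χ ψ : ℝ) ≤ 4 * (18 * 2 ^ I) * (NN P χ ψ' + 2 * Real.sqrt (2 * cψ * prs P ψ) * prs P χ) +
      4 * (18 * 2 ^ I) * prs P ψ

/-- MODULE ITER2 -/
def ITER2 : Prop := SYM → ARMS → REF2 → START → END → LINEAR

end Pool.Agent.H62.Per
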