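import Pool.Agent.H62.Per.Defs

/-! Module REF: refinement of a colouring. -/

set_option autoImplicit false

open Finset
open scoped Classical

namespace Pool.Agent.H62.Per

/-! ### encoding of colourings -/

theorem ref_enc {κ : Type} (g : Pl → κ) (P : Finset Pl) :
    ∃ χ : Pl → ℕ, ∀ x ∈ P, ∀ y ∈ P, (χ x = χ y ↔ g x = g y) := by
  let T : Finset κ := P.image g
  refine ⟨fun x => if h : g x ∈ T then (T.equivFin ⟨g x, h⟩ : ℕ) else 0, fun x hx y hy => ?_⟩
  have h1 : g x ∈ T := mem_image_of_mem g hx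
  have h2 : g y ∈ T := mem_image_of_mem g hy
  simp only [h1, h2, dif_pos]
  constructor
  · intro h
    have h3 := T.equivFin.injective (Fin.ext h)
    exact congrArg Subtype.val h3
  · intro h
    simp only [h]

/-! ### fibres -/

theorem ref_pairs {τ : Type} [DecidableEq τ] (F : Finset Pl) (g : Pl → τ) :
    ((F ×ˢ F).filter (fun s => g s.1 = g s.2)).card =
      ∑ t ∈ F.image g, ((F.filter (fun x => g x = t)).card) ^ 2 := by
  rw [card_eq_sum_card_fiberwise (f := fun s : Pl × Pl => g s.1) (t := F.image g)]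
  · refine sum_congr rfl fun t _ => ?_
    rw [sq, ← card_product]
    congr 1
    ext s
    simp only [mem_filter, mem_product]
    constructor
    · rintro ⟨⟨⟨h1, h2⟩, h3⟩, h4⟩
      exact ⟨⟨h1, h4⟩, h2, h3 ▸ h4⟩
    · rintro ⟨⟨h1, h4⟩, h2, h5⟩
      exact ⟨⟨⟨h1, h2⟩, h4.trans h5.symm⟩, h4⟩
  · intro s hs
    simp only [coe_filter, mem_product, Set.mem_ofPred_eq] at hs
    exact mem_coe.2 (mem_image_of_mem g hs.1.1)

theorem ref_pairs_offDiag {τ : Type} [DecidableEq τ] (F : Finset Pl) (g : Pl → τ) :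
    ((F ×ˢ F).filter (fun s => g s.1 = g s.2)).card =
      (F.offDiag.filter (fun s => g s.1 = g s.2)).card + F.card := by
  have h1 : (F ×ˢ F).filter (fun s => g s.1 = g s.2) =
      F.offDiag.filter (fun s => g s.1 = g s.2) ∪ F.diag := by
    ext s
    simp only [mem_filter, mem_product, mem_union, mem_offDiag, mem_diag]
    constructor
    · rintro ⟨⟨h1, h2⟩, h3⟩
      by_cases h : s.1 = s.2
      · exact Or.inr ⟨h1, h⟩
      · exact Or.inl ⟨⟨h1, h2, h⟩, h3⟩
    · rintro (⟨⟨h1, h2, _⟩, h3⟩ | ⟨h1, h2⟩)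
      · exact ⟨⟨h1, h2⟩, h3⟩
      · exact ⟨⟨h1, h2 ▸ h1⟩, by rw [h2]⟩
  rw [h1, card_union_of_disjoint, diag_card]
  rw [Finset.disjoint_left]
  intro s hs hs'
  simp only [mem_filter, mem_offDiag, mem_diag] at hs hs'
  exact hs.1.2.2 hs'.2

theorem ref_sum_sq (P : Finset Pl) (χ : Pl → ℕ) :
    ∑ c ∈ P.image χ, ((P.filter (fun x => χ x = c)).card) ^ 2 = prs P χ + P.card := by
  rw [← ref_pairs, ref_pairs_offDiag]
  rfl

/-! ### one level -/

theorem ref_level (F Z : Finset Pl) (hZ : Z ⊆ F) (B : ℕ) (hB : Z.card ≤ B) (ι χ' : Pl → ℕ)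
    (hι : ∀ x, ι x < B) (h : ∀ x ∈ F \ Z, ∀ y ∈ F \ Z, ι x = ι y → χ' x = χ' y) :
    F.card ^ 2 ≤ 4 * B * ((F.offDiag.filter (fun s => χ' s.1 = χ' s.2)).card + F.card) := by
  set F1 := F \ Z with hF1
  have hk : F1.card + Z.card = F.card := by
    rw [hF1, card_sdiff_add_card_eq_card hZ]
  set E := (F.offDiag.filter (fun s => χ' s.1 = χ' s.2)).card with hE
  have h1 : F1.card ^ 2 ≤ B * ((F1 ×ˢ F1).filter (fun s => ι s.1 = ι s.2)).card := by
    rw [ref_pairs]
    have h2 : F1.card = ∑ t ∈ F1.image ι, (F1.filter (fun x => ι x = t)).card :=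
      card_eq_sum_card_image ι F1
    have h3 : (F1.image ι).card ≤ B := by
      have : F1.image ι ⊆ range B := by
        intro t ht
        obtain ⟨x, _, rfl⟩ := mem_image.1 ht
        exact mem_range.2 (hι x)
      simpa using card_le_card this
    calc F1.card ^ 2 = (∑ t ∈ F1.image ι, (F1.filter (fun x => ι x = t)).card) ^ 2 := by rw [← h2]
      _ ≤ (F1.image ι).card * ∑ t ∈ F1.image ι, ((F1.filter (fun x => ι x = t)).card) ^ 2 :=
        sq_sum_le_card_mul_sum_sq
      _ ≤ _ := Nat.mul_le_mul_right _ h3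
  have h2 : ((F1 ×ˢ F1).filter (fun s => ι s.1 = ι s.2)).card ≤ E + F1.card := by
    calc ((F1 ×ˢ F1).filter (fun s => ι s.1 = ι s.2)).card
        ≤ ((F1 ×ˢ F1).filter (fun s => χ' s.1 = χ' s.2)).card := by
          refine card_le_card fun s hs => ?_
          simp only [mem_filter, mem_product] at hs ⊢
          exact ⟨hs.1, h _ hs.1.1 _ hs.1.2 hs.2⟩
      _ = (F1.offDiag.filter (fun s => χ' s.1 = χ' s.2)).card + F1.card := ref_pairs_offDiag _ _
      _ ≤ E + F1.card := by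
          refine Nat.add_le_add_right (card_le_card fun s hs => ?_) _
          simp only [mem_filter, mem_offDiag, hF1, mem_sdiff] at hs ⊢
          exact ⟨⟨hs.1.1.1, hs.1.2.1.1, hs.1.2.2⟩, hs.2⟩
  have h3 : F1.card ^ 2 ≤ B * (E + F1.card) := h1.trans (Nat.mul_le_mul_left _ h2)
  rcases le_or_gt (2 * B) F.card with hc | hc
  · have h4 : F.card ≤ 2 * F1.card := by omega
    have h5 : F1.card ≤ F.card := by omega
    calc F.card ^ 2 ≤ (2 * F1.card) ^ 2 := Nat.pow_le_pow_left h4 2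
      _ = 4 * F1.card ^ 2 := by ring
      _ ≤ 4 * (B * (E + F1.card)) := Nat.mul_le_mul_left _ h3
      _ ≤ 4 * (B * (E + F.card)) := by gcongr
      _ = 4 * B * (E + F.card) := by ring
  · calc F.card ^ 2 = F.card * F.card := sq _
      _ ≤ 2 * B * F.card := Nat.mul_le_mul_right _ hc.le
      _ ≤ 4 * B * (E + F.card) := by gcongr <;> omega

/-! ### mirror images -/

theorem ref_dd_sq (p q : Pl) : dd p q ^ 2 = (p.1 - q.1) ^ 2 + (p.2 - q.2) ^ 2 :=
  Real.sq_sqrt (by positivity)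

theorem ref_mirror {p q x y y' : Pl} (hpq : p ≠ q) (hx : y ≠ x) (hx' : y' ≠ x)
    (h1 : dd p y = dd p x) (h2 : dd q y = dd q x) (h1' : dd p y' = dd p x)
    (h2' : dd q y' = dd q x) : y = y' := by
  have e1 := ref_dd_sq p y
  have e2 := ref_dd_sq q y
  have e1' := ref_dd_sq p y'
  have e2' := ref_dd_sq q y'
  rw [h1, ref_dd_sq] at e1
  rw [h2, ref_dd_sq] at e2
  rw [h1', ref_dd_sq] at e1'
  rw [h2', ref_dd_sq] at e2'
  obtain ⟨p1, p2⟩ := p
  obtain ⟨q1, q2⟩ := q
  obtain ⟨x1, x2⟩ := x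
  obtain ⟨y1, y2⟩ := y
  obtain ⟨z1, z2⟩ := y'
  simp only at e1 e2 e1' e2'
  -- `y - x` and `z - x` are orthogonal to `q - p`
  have o1 : (y1 - x1) * (q1 - p1) + (y2 - x2) * (q2 - p2) = 0 := by linarith
  have o2 : (z1 - x1) * (q1 - p1) + (z2 - x2) * (q2 - p2) = 0 := by linarith
  have hne : q1 - p1 ≠ 0 ∨ q2 - p2 ≠ 0 := by
    by_contra hcon
    push Not at hcon
    apply hpq
    rw [Prod.mk.injEq]
    constructor <;> linarith [hcon.1, hcon.2]
  set D := (q1 - p1) ^ 2 + (q2 - p2) ^ 2 with hD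
  have hDpos : D ≠ 0 := by
    rcases hne with h | h
    · have : 0 < (q1 - p1) ^ 2 := by positivity
      have : 0 < D := by nlinarith [sq_nonneg (q2 - p2)]
      exact this.ne'
    · have : 0 < (q2 - p2) ^ 2 := by positivity
      have : 0 < D := by nlinarith [sq_nonneg (q1 - p1)]
      exact this.ne'
  -- parameters
  set s := ((y2 - x2) * (q1 - p1) - (y1 - x1) * (q2 - p2)) / D with hs
  set r := ((z2 - x2) * (q1 - p1) - (z1 - x1) * (q2 - p2)) / D with hr
  have hy1 : y1 - x1 = -(s * (q2 - p2)) := by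
    rw [hs]; field_simp; rw [hD]; linear_combination (q1 - p1) * o1
  have hy2 : y2 - x2 = s * (q1 - p1) := by
    rw [hs]; field_simp; rw [hD]; linear_combination (q2 - p2) * o1
  have hz1 : z1 - x1 = -(r * (q2 - p2)) := by
    rw [hr]; field_simp; rw [hD]; linear_combination (q1 - p1) * o2
  have hz2 : z2 - x2 = r * (q1 - p1) := by
    rw [hr]; field_simp; rw [hD]; linear_combination (q2 - p2) * o2
  have hs0 : s ≠ 0 := by
    intro h0
    apply hx
    rw [Prod.mk.injEq]
    rw [h0] at hy1 hy2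
    constructor <;> linarith
  have hr0 : r ≠ 0 := by
    intro h0
    apply hx'
    rw [Prod.mk.injEq]
    rw [h0] at hz1 hz2
    constructor <;> linarith
  have ey1 : y1 = x1 - s * (q2 - p2) := by linarith
  have ey2 : y2 = x2 + s * (q1 - p1) := by linarith
  have ez1 : z1 = x1 - r * (q2 - p2) := by linarith
  have ez2 : z2 = x2 + r * (q1 - p1) := by linarith
  have k1 : s * (s * D + 2 * ((x2 - p2) * (q1 - p1) - (x1 - p1) * (q2 - p2))) = 0 := by
    rw [ey1, ey2] at e1
    rw [hD]; linear_combination -e1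
  have k2 : r * (r * D + 2 * ((x2 - p2) * (q1 - p1) - (x1 - p1) * (q2 - p2))) = 0 := by
    rw [ez1, ez2] at e1'
    rw [hD]; linear_combination -e1'
  have k3 := (mul_eq_zero.1 k1).resolve_left hs0
  have k4 := (mul_eq_zero.1 k2).resolve_left hr0
  have k5 : (s - r) * D = 0 := by linear_combination k3 - k4
  have k6 : s = r := by
    have := (mul_eq_zero.1 k5).resolve_right hDpos
    linarith
  rw [ey1, ey2, ez1, ez2, k6]

theorem ref_mirror_card (P : Finset Pl) {p q : Pl} (hpq : p ≠ q) :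
    (P.offDiag.filter (fun s => dd p s.1 = dd p s.2 ∧ dd q s.1 = dd q s.2)).card ≤ P.card := by
  refine card_le_card_of_injOn Prod.fst (fun s hs => ?_) ?_
  · simp only [coe_filter, mem_offDiag, Set.mem_ofPred_eq] at hs
    exact hs.1.1
  · intro s hs r hr h
    simp only [coe_filter, mem_offDiag, Set.mem_ofPred_eq] at hs hr
    obtain ⟨s1, s2⟩ := s
    obtain ⟨r1, r2⟩ := r
    simp only at hs hr h
    subst h
    rw [Prod.mk.injEq]
    refine ⟨rfl, ?_⟩
    exact ref_mirror (x := s1) hpq (Ne.symm hs.1.2.2) (Ne.symm hr.1.2.2) hs.2.1.symm hs.2.2.symm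
      hr.2.1.symm hr.2.2.symm

/-! ### the count for one pair `(p, q)` -/

/-- the branch `{x | dd p x - dd q x = h}` is contained in the zero set of one of the `fs j` -/
def Exc {J : ℕ} {m : Fin J → ℕ} (fs : ∀ j, Arr (m j)) (p q : Pl) (h : ℝ) : Prop :=
  ∃ j, ∀ x, dd p x - dd q x = h → ev (fs j) x = 0

theorem ref_dd_nonneg (p q : Pl) : 0 ≤ dd p q := Real.sqrt_nonneg _

theorem ref_dd_comm (p q : Pl) : dd p q = dd q p := by
  unfold dd
  congr 1
  ring

theorem ref_ND_ne {p q : Pl} {h : ℝ} (H : ND p q h) : p ≠ q := by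
  rintro rfl
  have h1 := H.2
  have h2 : dd p p = 0 := by simp [dd]
  rw [h2] at h1
  exact absurd h1 (not_lt.2 (abs_nonneg _))

theorem ref_ND_swap {p q : Pl} {h : ℝ} (H : ND p q h) : ND q p (-h) := by
  refine ⟨neg_ne_zero.2 H.1, ?_⟩
  rw [abs_neg, ref_dd_comm]
  exact H.2

theorem ref_exc_card (hexc : EXC) {J : ℕ} {m : Fin J → ℕ} (fs : ∀ j, Arr (m j))
    (hfs : ∀ j, fs j ≠ 0)
    (Γ : Finset (Pl × Pl × ℝ)) (hΓ : ∀ γ ∈ Γ, ND γ.1 γ.2.1 γ.2.2 ∧ Exc fs γ.1 γ.2.1 γ.2.2) :
    Γ.card ≤ 2 * ∑ j, (4 * m j + 1) := by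
  have h1 : (Γ.filter (fun γ => 0 < γ.2.2)).card ≤ ∑ j, (4 * m j + 1) := by
    refine hexc J m fs hfs _ fun γ hγ => ?_
    rw [mem_filter] at hγ
    exact ⟨hγ.2, (hΓ γ hγ.1).1, (hΓ γ hγ.1).2⟩
  have h2 : (Γ.filter (fun γ => ¬ 0 < γ.2.2)).card ≤ ∑ j, (4 * m j + 1) := by
    have h3 : ((Γ.filter (fun γ => ¬ 0 < γ.2.2)).image
        (fun γ : Pl × Pl × ℝ => (γ.2.1, γ.1, -γ.2.2))).card =
        (Γ.filter (fun γ => ¬ 0 < γ.2.2)).card := by
      refine card_image_of_injective _ fun a b hab => ?_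
      simp only [Prod.mk.injEq, neg_inj] at hab
      exact Prod.ext hab.2.1 (Prod.ext hab.1 hab.2.2)
    rw [← h3]
    refine hexc J m fs hfs _ fun γ hγ => ?_
    obtain ⟨δ, hδ, rfl⟩ := mem_image.1 hγ
    rw [mem_filter] at hδ
    obtain ⟨hnd, j, hj⟩ := hΓ δ hδ.1
    refine ⟨?_, ref_ND_swap hnd, j, fun x hx => hj x ?_⟩
    · have : δ.2.2 ≤ 0 := not_lt.1 hδ.2
      have h4 : δ.2.2 ≠ 0 := hnd.1
      have : δ.2.2 < 0 := lt_of_le_of_ne this h4
      simpa using this
    · simp only at hx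
      linarith
  have h3 := card_filter_add_card_filter_not (s := Γ) (fun γ => 0 < γ.2.2)
  omega

section main

variable (P : Finset Pl) (χ ψ χ' : Pl → ℕ) {J : ℕ} {m : ℕ → Fin J → ℕ}
  (fs : ∀ c j, Arr (m c j)) (B : ℕ)

/-- key of a point relative to `(p, q)`: colour and level -/
noncomputable def key (p q x : Pl) : ℕ × ℝ := (χ x, dd p x - dd q x)

/-- points on nondegenerate levels -/
noncomputable def AA (p q : Pl) : Finset Pl := P.filter (fun x => ND p q (dd p x - dd q x))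

theorem ref_one (hcross : CROSS) (hB : ∀ c, 4 * ∑ j, m c j + 1 ≤ B)
    (hχ' : ∀ x ∈ P, ∀ y ∈ P, χ x = χ y → (∀ j, 0 < ev (fs (χ x) j) x * ev (fs (χ x) j) y) →
      χ' x = χ' y) {p q : Pl} (hpq : p ≠ q) :
    (P.offDiag.filter (fun r => χ r.1 = χ r.2 ∧ Rel p q r.1 r.2)).card ≤
      4 * B * ((P.offDiag.filter (fun r => χ' r.1 = χ' r.2 ∧ Rel p q r.1 r.2)).card + 2 * P.card) +
      ∑ t ∈ ((AA P p q).image (key χ p q)).filter (fun t => Exc (fs t.1) p q t.2),
        ((P.filter (fun x => χ x = t.1)).card) ^ 2 := by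
  set A := AA P p q with hA
  set g := key χ p q with hg
  set T := A.image g with hT
  have hAP : A ⊆ P := filter_subset _ _
  -- step 1
  have h1 : (P.offDiag.filter (fun r => χ r.1 = χ r.2 ∧ Rel p q r.1 r.2)).card ≤
      ∑ t ∈ T, ((A.filter (fun x => g x = t)).card) ^ 2 := by
    rw [hT, ← ref_pairs]
    refine card_le_card fun r hr => ?_
    simp only [mem_filter, mem_offDiag, mem_product] at hr ⊢
    obtain ⟨⟨hr1, hr2, hr3⟩, hr4, hr5, hr6, hr7, hr8⟩ := hr
    refine ⟨⟨?_, ?_⟩, ?_⟩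
    · rw [hA, AA, mem_filter]; exact ⟨hr1, hr7⟩
    · rw [hA, AA, mem_filter]; exact ⟨hr2, hr6 ▸ hr7⟩
    · rw [hg, key, key, hr4, hr6]
  -- step 2
  have h2 : ∀ t ∈ T, ¬ Exc (fs t.1) p q t.2 → ((A.filter (fun x => g x = t)).card) ^ 2 ≤
      4 * B * (((A.filter (fun x => g x = t)).offDiag.filter (fun s => χ' s.1 = χ' s.2)).card +
        (A.filter (fun x => g x = t)).card) := by
    intro t ht hne
    set F := A.filter (fun x => g x = t) with hF
    have hFm : ∀ x ∈ F, x ∈ P ∧ χ x = t.1 ∧ dd p x - dd q x = t.2 := by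
      intro x hx
      rw [hF, mem_filter] at hx
      have h3 : g x = t := hx.2
      rw [hg, key] at h3
      exact ⟨hAP hx.1, congrArg Prod.fst h3, congrArg Prod.snd h3⟩
    have hnd : ND p q t.2 := by
      obtain ⟨x, hx, hxt⟩ := mem_image.1 ht
      rw [hA, AA, mem_filter] at hx
      have h3 : dd p x - dd q x = t.2 := congrArg Prod.snd hxt
      rw [← h3]; exact hx.2
    have hne' : ∀ j, ∃ x, dd p x - dd q x = t.2 ∧ ev (fs t.1 j) x ≠ 0 := by
      intro j
      by_contra hcon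
      push Not at hcon
      exact hne ⟨j, hcon⟩
    obtain ⟨hz, ι, hι, hι'⟩ := hcross J (m t.1) (fs t.1) p q t.2 hnd hne'
    refine ref_level F (F.filter (fun x => ∃ j, ev (fs t.1 j) x = 0)) (filter_subset _ _) B
      ?_ ι χ' (fun x => ?_) ?_
    · refine (hz _ fun x hx => ?_).trans (by have := hB t.1; omega)
      rw [mem_filter] at hx
      exact ⟨(hFm x hx.1).2.2, hx.2⟩
    · have := hι x; have := hB t.1; omega
    · intro x hx y hy hxy
      simp only [mem_sdiff, mem_filter, not_and, not_exists] at hx hy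
      have hx1 := hFm x hx.1
      have hy1 := hFm y hy.1
      refine hχ' x hx1.1 y hy1.1 (hx1.2.1.trans hy1.2.1.symm) ?_
      rw [hx1.2.1]
      exact hι' x y hx1.2.2 hy1.2.2 (hx.2 hx.1) (hy.2 hy.1) hxy
  -- step 3
  have h3 : ∑ t ∈ T, ((A.filter (fun x => g x = t)).card) ^ 2 ≤
      ∑ t ∈ T.filter (fun t => ¬ Exc (fs t.1) p q t.2), 4 * B *
        (((A.filter (fun x => g x = t)).offDiag.filter (fun s => χ' s.1 = χ' s.2)).card +
          (A.filter (fun x => g x = t)).card) +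
      ∑ t ∈ T.filter (fun t => Exc (fs t.1) p q t.2), ((P.filter (fun x => χ x = t.1)).card) ^ 2 := by
    rw [← sum_filter_add_sum_filter_not T (fun t => ¬ Exc (fs t.1) p q t.2)]
    refine Nat.add_le_add (sum_le_sum fun t ht => ?_) ?_
    · rw [mem_filter] at ht
      exact h2 t ht.1 ht.2
    · simp only [not_not]
      refine sum_le_sum fun t _ => Nat.pow_le_pow_left (card_le_card fun x hx => ?_) 2
      rw [mem_filter] at hx ⊢
      have h3 : g x = t := hx.2
      rw [hg, key] at h3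
      exact ⟨hAP hx.1, congrArg Prod.fst h3⟩
  -- step 4
  have h4 : ∑ t ∈ T.filter (fun t => ¬ Exc (fs t.1) p q t.2),
        ((A.filter (fun x => g x = t)).offDiag.filter (fun s => χ' s.1 = χ' s.2)).card ≤
      (P.offDiag.filter (fun r => χ' r.1 = χ' r.2 ∧ Rel p q r.1 r.2)).card + P.card := by
    have h5 : (P.offDiag.filter (fun r => χ' r.1 = χ' r.2 ∧ Rel p q r.1 r.2) ∪
        P.offDiag.filter (fun s => dd p s.1 = dd p s.2 ∧ dd q s.1 = dd q s.2)).card ≤
        (P.offDiag.filter (fun r => χ' r.1 = χ' r.2 ∧ Rel p q r.1 r.2)).card + P.card :=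
      (card_union_le _ _).trans (Nat.add_le_add_left (ref_mirror_card P hpq) _)
    refine le_trans ?_ h5
    refine le_trans (sum_le_sum_of_subset (filter_subset _ T)) ?_
    rw [← card_biUnion]
    · refine card_le_card fun s hs => ?_
      rw [mem_biUnion] at hs
      obtain ⟨t, ht, hs⟩ := hs
      simp only [mem_filter, mem_offDiag] at hs
      obtain ⟨⟨⟨hs1, hs1'⟩, ⟨hs2, hs2'⟩, hs3⟩, hs4⟩ := hs
      have e1 : dd p s.1 - dd q s.1 = dd p s.2 - dd q s.2 := by
        have : g s.1 = g s.2 := hs1'.trans hs2'.symm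
        exact congrArg Prod.snd this
      have hnd : ND p q (dd p s.1 - dd q s.1) := by
        rw [hA, AA, mem_filter] at hs1
        exact hs1.2
      simp only [mem_union, mem_filter, mem_offDiag]
      by_cases he : dd p s.1 = dd p s.2
      · right
        exact ⟨⟨hAP hs1, hAP hs2, hs3⟩, he, by linarith⟩
      · left
        exact ⟨⟨hAP hs1, hAP hs2, hs3⟩, hs4, hs3, e1, hnd, he⟩
    · intro t _ t' _ htt'
      rw [Function.onFun, Finset.disjoint_left]
      intro s hs hs'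
      simp only [mem_filter, mem_offDiag] at hs hs'
      exact htt' (hs.1.1.2.symm.trans hs'.1.1.2)
  have h5 : ∑ t ∈ T.filter (fun t => ¬ Exc (fs t.1) p q t.2),
      (A.filter (fun x => g x = t)).card ≤ P.card := by
    refine le_trans (sum_le_sum_of_subset (filter_subset _ T)) ?_
    rw [hT, ← card_eq_sum_card_image g A]
    exact card_le_card hAP
  refine h1.trans (h3.trans (Nat.add_le_add_right ?_ _))
  rw [← mul_sum, sum_add_distrib]
  refine Nat.mul_le_mul_left _ ?_
  omega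

theorem ref_NN_eq : NN P χ ψ = ∑ s ∈ P.offDiag.filter (fun s => ψ s.1 = ψ s.2),
    (P.offDiag.filter (fun r => χ r.1 = χ r.2 ∧ Rel s.1 s.2 r.1 r.2)).card := by
  unfold NN
  rw [card_filter, sum_product_right, sum_filter]
  refine sum_congr rfl fun s _ => ?_
  split_ifs with h
  · rw [card_filter]
    refine sum_congr rfl fun r _ => ?_
    simp [h]
  · refine sum_eq_zero fun r _ => ?_
    simp [h]

theorem ref_all (hcross : CROSS) (hexc : EXC) (hB : ∀ c, 4 * ∑ j, m c j + 1 ≤ B)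
    (hB' : ∀ c, ∑ j, (4 * m c j + 1) ≤ B) (hfs : ∀ c j, fs c j ≠ 0)
    (hχ' : ∀ x ∈ P, ∀ y ∈ P, χ x = χ y → (∀ j, 0 < ev (fs (χ x) j) x * ev (fs (χ x) j) y) →
      χ' x = χ' y) :
    NN P χ ψ ≤ 4 * B * (NN P χ' ψ + 2 * P.card * prs P ψ) + 2 * B * (prs P χ + P.card) := by
  rw [ref_NN_eq, ref_NN_eq]
  set Q := P.offDiag.filter (fun s => ψ s.1 = ψ s.2) with hQ
  have hQc : Q.card = prs P ψ := rfl
  have hne : ∀ s ∈ Q, s.1 ≠ s.2 := by
    intro s hs
    rw [hQ, mem_filter, mem_offDiag] at hs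
    exact hs.1.2.2
  -- the exceptional part
  have hex : ∑ s ∈ Q, ∑ t ∈ ((AA P s.1 s.2).image (key χ s.1 s.2)).filter
      (fun t => Exc (fs t.1) s.1 s.2 t.2), ((P.filter (fun x => χ x = t.1)).card) ^ 2 ≤
      2 * B * (prs P χ + P.card) := by
    rw [sum_sigma' Q (fun s => ((AA P s.1 s.2).image (key χ s.1 s.2)).filter
      (fun t => Exc (fs t.1) s.1 s.2 t.2))]
    set G := Q.sigma (fun s => ((AA P s.1 s.2).image (key χ s.1 s.2)).filter
      (fun t => Exc (fs t.1) s.1 s.2 t.2)) with hG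
    have hGm : ∀ u ∈ G, u.2.1 ∈ P.image χ ∧ ND u.1.1 u.1.2 u.2.2 ∧
        Exc (fs u.2.1) u.1.1 u.1.2 u.2.2 := by
      intro u hu
      rw [hG, mem_sigma] at hu
      have hu2 := hu.2
      rw [mem_filter, mem_image] at hu2
      obtain ⟨⟨x, hx, hxt⟩, h3⟩ := hu2
      rw [AA, mem_filter] at hx
      have e1 : χ x = u.2.1 := congrArg Prod.fst hxt
      have e2 : dd u.1.1 x - dd u.1.2 x = u.2.2 := congrArg Prod.snd hxt
      refine ⟨?_, ?_, h3⟩
      · rw [← e1]; exact mem_image_of_mem χ hx.1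
      · rw [← e2]; exact hx.2
    rw [← sum_fiberwise_of_maps_to (s := G) (t := P.image χ) (g := fun u => u.2.1)
      (fun u hu => (hGm u hu).1)]
    calc ∑ c ∈ P.image χ, ∑ u ∈ G.filter (fun u => u.2.1 = c),
          ((P.filter (fun x => χ x = u.2.1)).card) ^ 2
        ≤ ∑ c ∈ P.image χ, 2 * B * ((P.filter (fun x => χ x = c)).card) ^ 2 := by
          refine sum_le_sum fun c _ => ?_
          have hcard : (G.filter (fun u => u.2.1 = c)).card ≤ 2 * B := by
            have h1 : ((G.filter (fun u => u.2.1 = c)).image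
                (fun u => (u.1.1, u.1.2, u.2.2))).card = (G.filter (fun u => u.2.1 = c)).card := by
              refine card_image_of_injOn fun a ha b hb hab => ?_
              simp only [coe_filter, Set.mem_ofPred_eq] at ha hb
              simp only [Prod.mk.injEq] at hab
              obtain ⟨⟨a1, a2⟩, a3, a4⟩ := a
              obtain ⟨⟨b1, b2⟩, b3, b4⟩ := b
              simp only at ha hb hab
              obtain ⟨e1, e2, e3⟩ := hab
              obtain ⟨_, e4⟩ := ha
              obtain ⟨_, e5⟩ := hb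
              subst e1 e2 e3
              subst e4
              subst e5
              rfl
            rw [← h1]
            refine (ref_exc_card hexc (fs c) (hfs c) _ fun γ hγ => ?_).trans
              (Nat.mul_le_mul_left 2 (hB' c))
            obtain ⟨u, hu, rfl⟩ := mem_image.1 hγ
            rw [mem_filter] at hu
            have h2 := hGm u hu.1
            rw [hu.2] at h2
            exact h2.2
          calc ∑ u ∈ G.filter (fun u => u.2.1 = c), ((P.filter (fun x => χ x = u.2.1)).card) ^ 2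
              = ∑ u ∈ G.filter (fun u => u.2.1 = c), ((P.filter (fun x => χ x = c)).card) ^ 2 := by
                refine sum_congr rfl fun u hu => ?_
                rw [mem_filter] at hu
                rw [hu.2]
            _ = (G.filter (fun u => u.2.1 = c)).card * ((P.filter (fun x => χ x = c)).card) ^ 2 := by
                rw [sum_const, smul_eq_mul]
            _ ≤ _ := Nat.mul_le_mul_right _ hcard
      _ = 2 * B * (prs P χ + P.card) := by
          rw [← mul_sum, ref_sum_sq]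
  calc ∑ s ∈ Q, (P.offDiag.filter (fun r => χ r.1 = χ r.2 ∧ Rel s.1 s.2 r.1 r.2)).card
      ≤ ∑ s ∈ Q, (4 * B * ((P.offDiag.filter (fun r => χ' r.1 = χ' r.2 ∧
          Rel s.1 s.2 r.1 r.2)).card + 2 * P.card) +
        ∑ t ∈ ((AA P s.1 s.2).image (key χ s.1 s.2)).filter (fun t => Exc (fs t.1) s.1 s.2 t.2),
          ((P.filter (fun x => χ x = t.1)).card) ^ 2) :=
        sum_le_sum fun s hs => ref_one P χ χ' fs B hcross hB hχ' (hne s hs)
    _ ≤ _ := by
        rw [sum_add_distrib]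
        refine Nat.add_le_add ?_ hex
        rw [← mul_sum, sum_add_distrib, sum_const, hQc, smul_eq_mul]
        refine Nat.mul_le_mul_left _ ?_
        refine Nat.add_le_add_left (le_of_eq ?_) _
        ring

end main

theorem ref_of (hpart : PART) (hcross : CROSS) (hexc : EXC) : REF := by
  intro P χ ψ I hI
  have hp : ∀ c : ℕ, ∃ (m : Fin (2 * I) → ℕ) (fs : ∀ j, Arr (m j)), (∀ j, fs j ≠ 0) ∧
      ∑ j, m j ≤ 4 * 2 ^ I ∧
      (((P.filter (fun x => χ x = c)).offDiag.filter
        (fun s => ∀ j, 0 < ev (fs j) s.1 * ev (fs j) s.2)).card : ℝ) ≤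
      7 * ((P.filter (fun x => χ x = c)).card : ℝ) ^ 2 / 4 ^ I := fun c => hpart I _
  choose m fs hfs hm hfs' using hp
  -- the new colouring
  let key2 : Pl → (ℕ × (Fin (2 * I) → Bool)) ⊕ Pl := fun x =>
    if ∀ j, ev (fs (χ x) j) x ≠ 0 then Sum.inl (χ x, fun j => decide (0 < ev (fs (χ x) j) x))
    else Sum.inr x
  obtain ⟨χ', hχ'⟩ := ref_enc key2 P
  have hk1 : ∀ x y, x ≠ y → key2 x = key2 y → χ x = χ y ∧
      ∀ j, 0 < ev (fs (χ x) j) x * ev (fs (χ x) j) y := by
    intro x y hxy h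
    simp only [key2] at h
    split_ifs at h with h1 h2 h2
    · have h3 := Sum.inl.inj h
      have h4 : χ x = χ y := congrArg Prod.fst h3
      have h5 := congrArg Prod.snd h3
      refine ⟨h4, fun j => ?_⟩
      have h6 : decide (0 < ev (fs (χ x) j) x) = decide (0 < ev (fs (χ y) j) y) := congrFun h5 j
      rw [decide_eq_decide] at h6
      have h7 := h1 j
      have h8 := h2 j
      rw [← h4] at h6 h8
      rcases lt_or_gt_of_ne h7 with h9 | h9
      · have : ¬ 0 < ev (fs (χ x) j) y := fun h10 => absurd (h6.2 h10) (not_lt.2 h9.le)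
        exact mul_pos_of_neg_of_neg h9 (lt_of_le_of_ne (not_lt.1 this) h8)
      · exact mul_pos h9 (h6.1 h9)
    · exact absurd (Sum.inr.inj h) hxy
  have hk2 : ∀ x y, χ x = χ y → (∀ j, 0 < ev (fs (χ x) j) x * ev (fs (χ x) j) y) →
      key2 x = key2 y := by
    intro x y h1 h2
    have h3 : ∀ j, ev (fs (χ x) j) x ≠ 0 := fun j h => by
      have := h2 j; rw [h, zero_mul] at this; exact lt_irrefl _ this
    have h4 : ∀ j, ev (fs (χ y) j) y ≠ 0 := fun j h => by
      have := h2 j; rw [h1, h, mul_zero] at this; exact lt_irrefl _ this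
    simp only [key2, if_pos h3, if_pos h4]
    congr 1
    rw [Prod.mk.injEq]
    refine ⟨h1, funext fun j => ?_⟩
    rw [decide_eq_decide]
    have h5 := h2 j
    rw [← h1]
    exact pos_iff_pos_of_mul_pos h5
  refine ⟨χ', ?_, ?_⟩
  · -- number of pairs
    have h1 : prs P χ' ≤ ∑ c ∈ P.image χ, ((P.filter (fun x => χ x = c)).offDiag.filter
        (fun s => ∀ j, 0 < ev (fs c j) s.1 * ev (fs c j) s.2)).card := by
      unfold prs
      refine le_trans (card_le_card ?_) card_biUnion_le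
      intro s hs
      rw [mem_filter, mem_offDiag] at hs
      obtain ⟨⟨hs1, hs2, hs3⟩, hs4⟩ := hs
      have h2 := hk1 s.1 s.2 hs3 ((hχ' s.1 hs1 s.2 hs2).1 hs4)
      rw [mem_biUnion]
      refine ⟨χ s.1, mem_image_of_mem χ hs1, ?_⟩
      rw [mem_filter, mem_offDiag, mem_filter, mem_filter]
      exact ⟨⟨⟨hs1, rfl⟩, ⟨hs2, h2.1.symm⟩, hs3⟩, h2.2⟩
    calc (prs P χ' : ℝ) ≤ ∑ c ∈ P.image χ, (((P.filter (fun x => χ x = c)).offDiag.filter
        (fun s => ∀ j, 0 < ev (fs c j) s.1 * ev (fs c j) s.2)).card : ℝ) := by exact_mod_cast h1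
      _ ≤ ∑ c ∈ P.image χ, 7 * ((P.filter (fun x => χ x = c)).card : ℝ) ^ 2 / 4 ^ I :=
        sum_le_sum fun c _ => hfs' c
      _ = 7 * (∑ c ∈ P.image χ, ((P.filter (fun x => χ x = c)).card : ℝ) ^ 2) / 4 ^ I := by
        rw [← sum_div, ← mul_sum]
      _ = 7 * ((prs P χ : ℝ) + P.card) / 4 ^ I := by
        have := ref_sum_sq P χ
        have h3 : (∑ c ∈ P.image χ, ((P.filter (fun x => χ x = c)).card : ℝ) ^ 2) =
            (prs P χ : ℝ) + P.card := by exact_mod_cast this
        rw [h3]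
  · refine ref_all P χ ψ χ' fs (18 * 2 ^ I) hcross hexc (fun c => ?_) (fun c => ?_) hfs ?_
    · have h1 : 1 ≤ 2 ^ I := Nat.one_le_two_pow
      have h2 := hm c
      omega
    · have h1 : I < 2 ^ I := Nat.lt_two_pow_self
      have h2 := hm c
      rw [sum_add_distrib, ← mul_sum]
      simp only [sum_const, card_univ, Fintype.card_fin, smul_eq_mul, mul_one]
      omega
    · intro x hx y hy h1 h2
      exact (hχ' x hx y hy).2 (hk2 x y h1 h2)

end Pool.Agent.H62.Per
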