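import Pool.Agent.H62.Per.Defs2
import Pool.Agent.H62.Per.Ref

/-! Module REF2: refinement of a colouring by connected components. -/

set_option autoImplicit false

open Finset
open scoped Classical

namespace Pool.Agent.H62.Per

/-! ### connected components -/

/-- complement of the zero sets -/
def NZ {J : ℕ} {m : Fin J → ℕ} (fs : ∀ j, Arr (m j)) : Set Pl := {z | ∀ j, ev (fs j) z ≠ 0}

/-- two points in one connected component of the complement of the zero sets -/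
def Conn {J : ℕ} {m : Fin J → ℕ} (fs : ∀ j, Arr (m j)) (x y : Pl) : Prop :=
  ∃ T : Set Pl, IsPreconnected T ∧ x ∈ T ∧ y ∈ T ∧ ∀ z ∈ T, ∀ j, ev (fs j) z ≠ 0

theorem ref2_ev_cont {m : ℕ} (h : Arr m) : Continuous (ev h) := by
  unfold ev
  fun_prop

theorem ref2_conn_iff {J : ℕ} {m : Fin J → ℕ} (fs : ∀ j, Arr (m j)) {x y : Pl} (hx : x ∈ NZ fs)
    (hy : y ∈ NZ fs) :
    Conn fs x y ↔ connectedComponentIn (NZ fs) x = connectedComponentIn (NZ fs) y := by
  constructor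
  · rintro ⟨T, hT, hxT, hyT, hz⟩
    have h1 : T ⊆ connectedComponentIn (NZ fs) x :=
      hT.subset_connectedComponentIn hxT (fun z hz' => hz z hz')
    exact connectedComponentIn_eq (h1 hyT)
  · intro h
    refine ⟨connectedComponentIn (NZ fs) x, isPreconnected_connectedComponentIn,
      mem_connectedComponentIn hx, ?_, fun z hz => connectedComponentIn_subset _ _ hz⟩
    rw [h]
    exact mem_connectedComponentIn hy

theorem ref2_sign {J : ℕ} {m : Fin J → ℕ} (fs : ∀ j, Arr (m j)) {x y : Pl} (h : Conn fs x y)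
    (j : Fin J) : 0 < ev (fs j) x * ev (fs j) y := by
  obtain ⟨T, hT, hxT, hyT, hz⟩ := h
  have hx := hz x hxT j
  have hy := hz y hyT j
  have hc : ContinuousOn (ev (fs j)) T := (ref2_ev_cont _).continuousOn
  by_contra hcon
  push Not at hcon
  have hlt : ev (fs j) x * ev (fs j) y < 0 := lt_of_le_of_ne hcon (mul_ne_zero hx hy)
  rcases mul_neg_iff.1 hlt with ⟨h1, h2⟩ | ⟨h1, h2⟩
  · obtain ⟨z, hzT, hz0⟩ := hT.intermediate_value hyT hxT hc ⟨h2.le, h1.le⟩
    exact hz z hzT j hz0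
  · obtain ⟨z, hzT, hz0⟩ := hT.intermediate_value hxT hyT hc ⟨h1.le, h2.le⟩
    exact hz z hzT j hz0

/-- a line separating two points of a component meets the component -/
theorem ref2_line {J : ℕ} {m : Fin J → ℕ} (fs : ∀ j, Arr (m j)) {x y : Pl} (h : Conn fs x y)
    (u v w : ℝ) (hl : lin u v w x * lin u v w y ≤ 0) :
    ∃ o, lin u v w o = 0 ∧ Conn fs x o := by
  obtain ⟨T, hT, hxT, hyT, hz⟩ := h
  have hc : ContinuousOn (lin u v w) T := by
    unfold lin
    fun_prop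
  rcases mul_nonpos_iff.1 hl with ⟨h1, h2⟩ | ⟨h1, h2⟩
  · obtain ⟨z, hzT, hz0⟩ := hT.intermediate_value hyT hxT hc ⟨h2, h1⟩
    exact ⟨z, hz0, T, hT, hxT, hzT, hz⟩
  · obtain ⟨z, hzT, hz0⟩ := hT.intermediate_value hxT hyT hc ⟨h1, h2⟩
    exact ⟨z, hz0, T, hT, hxT, hzT, hz⟩

/-! ### counting for one pair of foci -/

theorem ref2_one (A : Finset Pl) (ψ ψ' : Pl → ℕ) {J : ℕ} {m : ℕ → Fin J → ℕ}
    (fs : ∀ c j, Arr (m c j)) (B : ℕ) {a b : Pl} (hab : a ≠ b)
    (hcr : ∀ c h, ND a b h → ¬ Exc (fs c) a b h →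
      (∀ S : Finset Pl, (∀ x ∈ S, dd a x - dd b x = h ∧ ∃ j, ev (fs c j) x = 0) → S.card ≤ B) ∧
      ∃ ι : Pl → ℕ, (∀ x, ι x < B) ∧ ∀ x ∈ A, ∀ y ∈ A, ψ x = c → ψ y = c →
        dd a x - dd b x = h → dd a y - dd b y = h → (∀ j, ev (fs c j) x ≠ 0) →
        (∀ j, ev (fs c j) y ≠ 0) → ι x = ι y → ψ' x = ψ' y) :
    (A.offDiag.filter (fun r => ψ r.1 = ψ r.2 ∧ Rel a b r.1 r.2)).card ≤
      4 * B * ((A.offDiag.filter (fun r => ψ' r.1 = ψ' r.2 ∧ Rel a b r.1 r.2)).card + 2 * A.card) +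
      ∑ t ∈ ((AA A a b).image (key ψ a b)).filter (fun t => Exc (fs t.1) a b t.2),
        ((A.filter (fun x => ψ x = t.1)).card) ^ 2 := by
  set A' := AA A a b with hA
  set g := key ψ a b with hg
  set T := A'.image g with hT
  have hAP : A' ⊆ A := filter_subset _ _
  have h1 : (A.offDiag.filter (fun r => ψ r.1 = ψ r.2 ∧ Rel a b r.1 r.2)).card ≤
      ∑ t ∈ T, ((A'.filter (fun x => g x = t)).card) ^ 2 := by
    rw [hT, ← ref_pairs]
    refine card_le_card fun r hr => ?_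
    simp only [mem_filter, mem_offDiag, mem_product] at hr ⊢
    obtain ⟨⟨hr1, hr2, hr3⟩, hr4, hr5, hr6, hr7, hr8⟩ := hr
    refine ⟨⟨?_, ?_⟩, ?_⟩
    · rw [hA, AA, mem_filter]; exact ⟨hr1, hr7⟩
    · rw [hA, AA, mem_filter]; exact ⟨hr2, hr6 ▸ hr7⟩
    · rw [hg, key, key, hr4, hr6]
  have h2 : ∀ t ∈ T, ¬ Exc (fs t.1) a b t.2 → ((A'.filter (fun x => g x = t)).card) ^ 2 ≤
      4 * B * (((A'.filter (fun x => g x = t)).offDiag.filter (fun s => ψ' s.1 = ψ' s.2)).card +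
        (A'.filter (fun x => g x = t)).card) := by
    intro t ht hne
    set F := A'.filter (fun x => g x = t) with hF
    have hFm : ∀ x ∈ F, x ∈ A ∧ ψ x = t.1 ∧ dd a x - dd b x = t.2 := by
      intro x hx
      rw [hF, mem_filter] at hx
      have h3 : g x = t := hx.2
      rw [hg, key] at h3
      exact ⟨hAP hx.1, congrArg Prod.fst h3, congrArg Prod.snd h3⟩
    have hnd : ND a b t.2 := by
      obtain ⟨x, hx, hxt⟩ := mem_image.1 ht
      rw [hA, AA, mem_filter] at hx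
      have h3 : dd a x - dd b x = t.2 := congrArg Prod.snd hxt
      rw [← h3]; exact hx.2
    obtain ⟨hz, ι, hι, hι'⟩ := hcr t.1 t.2 hnd hne
    refine ref_level F (F.filter (fun x => ∃ j, ev (fs t.1 j) x = 0)) (filter_subset _ _) B
      ?_ ι ψ' hι ?_
    · refine hz _ fun x hx => ?_
      rw [mem_filter] at hx
      exact ⟨(hFm x hx.1).2.2, hx.2⟩
    · intro x hx y hy hxy
      simp only [mem_sdiff, mem_filter, not_and, not_exists] at hx hy
      have hx1 := hFm x hx.1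
      have hy1 := hFm y hy.1
      exact hι' x hx1.1 y hy1.1 hx1.2.1 hy1.2.1 hx1.2.2 hy1.2.2 (hx.2 hx.1) (hy.2 hy.1) hxy
  have h3 : ∑ t ∈ T, ((A'.filter (fun x => g x = t)).card) ^ 2 ≤
      ∑ t ∈ T.filter (fun t => ¬ Exc (fs t.1) a b t.2), 4 * B *
        (((A'.filter (fun x => g x = t)).offDiag.filter (fun s => ψ' s.1 = ψ' s.2)).card +
          (A'.filter (fun x => g x = t)).card) +
      ∑ t ∈ T.filter (fun t => Exc (fs t.1) a b t.2), ((A.filter (fun x => ψ x = t.1)).card) ^ 2 := by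
    rw [← sum_filter_add_sum_filter_not T (fun t => ¬ Exc (fs t.1) a b t.2)]
    refine Nat.add_le_add (sum_le_sum fun t ht => ?_) ?_
    · rw [mem_filter] at ht
      exact h2 t ht.1 ht.2
    · simp only [not_not]
      refine sum_le_sum fun t _ => Nat.pow_le_pow_left (card_le_card fun x hx => ?_) 2
      rw [mem_filter] at hx ⊢
      have h3 : g x = t := hx.2
      rw [hg, key] at h3
      exact ⟨hAP hx.1, congrArg Prod.fst h3⟩
  have h4 : ∑ t ∈ T.filter (fun t => ¬ Exc (fs t.1) a b t.2),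
        ((A'.filter (fun x => g x = t)).offDiag.filter (fun s => ψ' s.1 = ψ' s.2)).card ≤
      (A.offDiag.filter (fun r => ψ' r.1 = ψ' r.2 ∧ Rel a b r.1 r.2)).card + A.card := by
    have h5 : (A.offDiag.filter (fun r => ψ' r.1 = ψ' r.2 ∧ Rel a b r.1 r.2) ∪
        A.offDiag.filter (fun s => dd a s.1 = dd a s.2 ∧ dd b s.1 = dd b s.2)).card ≤
        (A.offDiag.filter (fun r => ψ' r.1 = ψ' r.2 ∧ Rel a b r.1 r.2)).card + A.card :=
      (card_union_le _ _).trans (Nat.add_le_add_left (ref_mirror_card A hab) _)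
    refine le_trans ?_ h5
    refine le_trans (sum_le_sum_of_subset (filter_subset _ T)) ?_
    rw [← card_biUnion]
    · refine card_le_card fun s hs => ?_
      rw [mem_biUnion] at hs
      obtain ⟨t, ht, hs⟩ := hs
      simp only [mem_filter, mem_offDiag] at hs
      obtain ⟨⟨⟨hs1, hs1'⟩, ⟨hs2, hs2'⟩, hs3⟩, hs4⟩ := hs
      have e1 : dd a s.1 - dd b s.1 = dd a s.2 - dd b s.2 := by
        have : g s.1 = g s.2 := hs1'.trans hs2'.symm
        exact congrArg Prod.snd this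
      have hnd : ND a b (dd a s.1 - dd b s.1) := by
        rw [hA, AA, mem_filter] at hs1
        exact hs1.2
      simp only [mem_union, mem_filter, mem_offDiag]
      by_cases he : dd a s.1 = dd a s.2
      · right
        exact ⟨⟨hAP hs1, hAP hs2, hs3⟩, he, by linarith⟩
      · left
        exact ⟨⟨hAP hs1, hAP hs2, hs3⟩, hs4, hs3, e1, hnd, he⟩
    · intro t _ t' _ htt'
      rw [Function.onFun, Finset.disjoint_left]
      intro s hs hs'
      simp only [mem_filter, mem_offDiag] at hs hs'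
      exact htt' (hs.1.1.2.symm.trans hs'.1.1.2)
  have h5 : ∑ t ∈ T.filter (fun t => ¬ Exc (fs t.1) a b t.2),
      (A'.filter (fun x => g x = t)).card ≤ A.card := by
    refine le_trans (sum_le_sum_of_subset (filter_subset _ T)) ?_
    rw [hT, ← card_eq_sum_card_image g A']
    exact card_le_card hAP
  refine h1.trans (h3.trans (Nat.add_le_add_right ?_ _))
  rw [← mul_sum, sum_add_distrib]
  refine Nat.mul_le_mul_left _ ?_
  omega

/-! ### sizes of the classes -/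

theorem ref2_sum_offDiag (P : Finset Pl) (ψ : Pl → ℕ) :
    ∑ c ∈ P.image ψ, ((P.filter (fun x => ψ x = c)).offDiag).card = prs P ψ := by
  unfold prs
  rw [card_eq_sum_card_fiberwise (f := fun s : Pl × Pl => ψ s.1) (t := P.image ψ)]
  · refine sum_congr rfl fun c _ => ?_
    congr 1
    ext s
    simp only [mem_filter, mem_offDiag]
    constructor
    · rintro ⟨⟨h1, h2⟩, ⟨h3, h4⟩, h5⟩
      exact ⟨⟨⟨h1, h3, h5⟩, h2.trans h4.symm⟩, h2⟩
    · rintro ⟨⟨⟨h1, h2, h3⟩, h4⟩, h5⟩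
      exact ⟨⟨h1, h5⟩, ⟨h2, h4 ▸ h5⟩, h3⟩
  · intro s hs
    simp only [coe_filter, mem_offDiag, Set.mem_ofPred_eq] at hs
    exact mem_coe.2 (mem_image_of_mem ψ hs.1.1)

theorem ref2_sq_le {C : Finset Pl} (h : 2 ≤ C.card) : C.card ^ 2 ≤ 2 * C.offDiag.card := by
  rw [offDiag_card]
  have h1 : C.card * 2 ≤ C.card * C.card := Nat.mul_le_mul_left _ h
  rw [sq]
  omega

/-- classes of the separated colours have at least two points -/
theorem ref2_sep_two {P : Finset Pl} {ψ : Pl → ℕ} {u v w : ℝ} {c : ℕ}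
    (hc : c ∈ sepcol P ψ u v w) : 2 ≤ (P.filter (fun x => ψ x = c)).card := by
  unfold sepcol at hc
  obtain ⟨s, hs, rfl⟩ := mem_image.1 hc
  rw [mem_filter, mem_offDiag] at hs
  obtain ⟨⟨h1, h2, h3⟩, h4, _⟩ := hs
  exact Nat.succ_le_of_lt
    (one_lt_card.2 ⟨s.1, mem_filter.2 ⟨h1, rfl⟩, s.2, mem_filter.2 ⟨h2, h4.symm⟩, h3⟩)

/-- points of the separated colours -/
noncomputable def act (P : Finset Pl) (ψ : Pl → ℕ) (u v w : ℝ) : Finset Pl :=
  P.filter (fun p => ψ p ∈ sepcol P ψ u v w)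

theorem ref2_act_card {P : Finset Pl} {ψ : Pl → ℕ} {k : ℝ} (hk : CrLe P ψ k) {u v w : ℝ}
    (huv : u ≠ 0 ∨ v ≠ 0) :
    ((act P ψ u v w).card : ℝ) ≤ Real.sqrt (2 * k * prs P ψ) := by
  refine Real.le_sqrt_of_sq_le ?_
  have hsub : sepcol P ψ u v w ⊆ P.image ψ := by
    intro c hc
    unfold sepcol at hc
    obtain ⟨s, hs, rfl⟩ := mem_image.1 hc
    rw [mem_filter, mem_offDiag] at hs
    exact mem_image_of_mem ψ hs.1.1
  have h1 : (act P ψ u v w).card = ∑ c ∈ sepcol P ψ u v w, (P.filter (fun x => ψ x = c)).card := by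
    rw [card_eq_sum_card_fiberwise (f := ψ) (t := sepcol P ψ u v w)]
    · refine sum_congr rfl fun c hc => ?_
      congr 1
      ext x
      simp only [act, mem_filter]
      constructor
      · rintro ⟨⟨h1, h2⟩, h3⟩; exact ⟨h1, h3⟩
      · rintro ⟨h1, h2⟩; exact ⟨⟨h1, h2 ▸ hc⟩, h2⟩
    · intro x hx
      simp only [act, coe_filter, Set.mem_ofPred_eq] at hx
      exact hx.2
  have h2 : (act P ψ u v w).card ^ 2 ≤ (sepcol P ψ u v w).card * (2 * prs P ψ) := by
    rw [h1]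
    refine sq_sum_le_card_mul_sum_sq.trans (Nat.mul_le_mul_left _ ?_)
    calc ∑ c ∈ sepcol P ψ u v w, (P.filter (fun x => ψ x = c)).card ^ 2
        ≤ ∑ c ∈ sepcol P ψ u v w, 2 * ((P.filter (fun x => ψ x = c)).offDiag).card :=
          sum_le_sum fun c hc => ref2_sq_le (ref2_sep_two hc)
      _ ≤ ∑ c ∈ P.image ψ, 2 * ((P.filter (fun x => ψ x = c)).offDiag).card :=
          sum_le_sum_of_subset hsub
      _ = 2 * prs P ψ := by rw [← mul_sum, ref2_sum_offDiag]
  have h3 : ((act P ψ u v w).card : ℝ) ^ 2 ≤ ((sepcol P ψ u v w).card : ℝ) * (2 * prs P ψ) := by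
    exact_mod_cast h2
  refine h3.trans ?_
  have h4 := hk u v w huv
  have h5 : (0 : ℝ) ≤ 2 * prs P ψ := by positivity
  calc ((sepcol P ψ u v w).card : ℝ) * (2 * prs P ψ) ≤ k * (2 * prs P ψ) := by gcongr
    _ = 2 * k * prs P ψ := by ring

/-- coefficients of the line through `x`, `y` -/
theorem ref2_ori (x y p : Pl) : ori x y p =
    lin (-(y.2 - x.2)) (y.1 - x.1) (-(y.1 - x.1) * x.2 + (y.2 - x.2) * x.1) p := by
  unfold ori lin
  ring

theorem ref2_ori_ne {x y : Pl} (h : x ≠ y) : -(y.2 - x.2) ≠ 0 ∨ y.1 - x.1 ≠ 0 := by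
  by_contra hcon
  push Not at hcon
  apply h
  exact Prod.ext (by linarith [hcon.2]) (by linarith [hcon.1])

/-- active points for the line through `x`, `y` -/
noncomputable def act2 (P : Finset Pl) (ψ : Pl → ℕ) (x y : Pl) : Finset Pl :=
  act P ψ (-(y.2 - x.2)) (y.1 - x.1) (-(y.1 - x.1) * x.2 + (y.2 - x.2) * x.1)

theorem ref2_act2_card {P : Finset Pl} {ψ : Pl → ℕ} {k : ℝ} (hk : CrLe P ψ k) {x y : Pl}
    (h : x ≠ y) : ((act2 P ψ x y).card : ℝ) ≤ Real.sqrt (2 * k * prs P ψ) :=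
  ref2_act_card hk (ref2_ori_ne h)

theorem ref2_mem_act2 {P : Finset Pl} {ψ : Pl → ℕ} {x y p q : Pl} (hp : p ∈ P) (hq : q ∈ P)
    (hpq : p ≠ q) (h : ψ p = ψ q) (ho : ori x y p * ori x y q ≤ 0) : p ∈ act2 P ψ x y := by
  rw [ref2_ori, ref2_ori] at ho
  unfold act2 act
  rw [mem_filter]
  refine ⟨hp, ?_⟩
  unfold sepcol
  rw [mem_image]
  exact ⟨(p, q), mem_filter.2 ⟨mem_offDiag.2 ⟨hp, hq, hpq⟩, h, ho⟩, rfl⟩

theorem ref2_act2_two {P : Finset Pl} {ψ : Pl → ℕ} {x y p : Pl} (hp : p ∈ act2 P ψ x y) :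
    2 ≤ (P.filter (fun z => ψ z = ψ p)).card := by
  unfold act2 act at hp
  rw [mem_filter] at hp
  exact ref2_sep_two hp.2

/-! ### the exceptional part -/

theorem ref2_exc (hexc : EXC) (P : Finset Pl) (Q : Finset (Pl × Pl)) (ψ : Pl → ℕ) {J : ℕ}
    {m : ℕ → Fin J → ℕ} (fs : ∀ c j, Arr (m c j)) (B : ℕ) (hB' : ∀ c, ∑ j, (4 * m c j + 1) ≤ B)
    (hfs : ∀ c j, fs c j ≠ 0) (A : Pl × Pl → Finset Pl) (hA : ∀ s ∈ Q, A s ⊆ P)
    (hA2 : ∀ s ∈ Q, ∀ p ∈ A s, 2 ≤ (P.filter (fun z => ψ z = ψ p)).card) :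
    ∑ s ∈ Q, ∑ t ∈ ((AA (A s) s.1 s.2).image (key ψ s.1 s.2)).filter
      (fun t => Exc (fs t.1) s.1 s.2 t.2), (((A s).filter (fun x => ψ x = t.1)).card) ^ 2 ≤
      4 * B * prs P ψ := by
  rw [sum_sigma' Q (fun s => ((AA (A s) s.1 s.2).image (key ψ s.1 s.2)).filter
    (fun t => Exc (fs t.1) s.1 s.2 t.2))]
  set G := Q.sigma (fun s => ((AA (A s) s.1 s.2).image (key ψ s.1 s.2)).filter
    (fun t => Exc (fs t.1) s.1 s.2 t.2)) with hG
  have hGm : ∀ u ∈ G, u.1 ∈ Q ∧ u.2.1 ∈ P.image ψ ∧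
      2 ≤ (P.filter (fun z => ψ z = u.2.1)).card ∧ ND u.1.1 u.1.2 u.2.2 ∧
      Exc (fs u.2.1) u.1.1 u.1.2 u.2.2 := by
    intro u hu
    rw [hG, mem_sigma] at hu
    have hu2 := hu.2
    rw [mem_filter, mem_image] at hu2
    obtain ⟨⟨x, hx, hxt⟩, h3⟩ := hu2
    rw [AA, mem_filter] at hx
    have e1 : ψ x = u.2.1 := congrArg Prod.fst hxt
    have e2 : dd u.1.1 x - dd u.1.2 x = u.2.2 := congrArg Prod.snd hxt
    refine ⟨hu.1, ?_, ?_, ?_, h3⟩
    · rw [← e1]; exact mem_image_of_mem ψ (hA _ hu.1 hx.1)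
    · rw [← e1]; exact hA2 _ hu.1 x hx.1
    · rw [← e2]; exact hx.2
  rw [← sum_fiberwise_of_maps_to (s := G) (t := P.image ψ) (g := fun u => u.2.1)
    (fun u hu => (hGm u hu).2.1)]
  calc ∑ c ∈ P.image ψ, ∑ u ∈ G.filter (fun u => u.2.1 = c),
        (((A u.1).filter (fun x => ψ x = u.2.1)).card) ^ 2
      ≤ ∑ c ∈ P.image ψ, 2 * B * (2 * ((P.filter (fun x => ψ x = c)).offDiag).card) := by
        refine sum_le_sum fun c _ => ?_
        have hcard : (G.filter (fun u => u.2.1 = c)).card ≤ 2 * B := by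
          have h1 : ((G.filter (fun u => u.2.1 = c)).image
              (fun u => (u.1.1, u.1.2, u.2.2))).card = (G.filter (fun u => u.2.1 = c)).card := by
            refine card_image_of_injOn fun a ha b hb hab => ?_
            simp only [coe_filter, Set.mem_ofPred_eq] at ha hb
            simp only [Prod.mk.injEq] at hab
            obtain ⟨⟨a1, a2⟩, a3, a4⟩ := a
            obtain ⟨⟨b1, b2⟩, b3, b4⟩ := b
            simp only at ha hb hab
            obtain ⟨e1, e2, e3⟩ := hab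
            obtain ⟨_, e4⟩ := ha
            obtain ⟨_, e5⟩ := hb
            subst e1 e2 e3
            subst e4
            subst e5
            rfl
          rw [← h1]
          refine (ref_exc_card hexc (fs c) (hfs c) _ fun γ hγ => ?_).trans
            (Nat.mul_le_mul_left 2 (hB' c))
          obtain ⟨u, hu, rfl⟩ := mem_image.1 hγ
          rw [mem_filter] at hu
          have h2 := (hGm u hu.1).2.2.2
          rw [hu.2] at h2
          exact h2
        rcases (G.filter (fun u => u.2.1 = c)).eq_empty_or_nonempty with he | ⟨u0, hu0⟩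
        · rw [he, sum_empty]; exact Nat.zero_le _
        · have h2c : 2 ≤ (P.filter (fun z => ψ z = c)).card := by
            rw [mem_filter] at hu0
            have := (hGm u0 hu0.1).2.2.1
            rw [hu0.2] at this
            exact this
          calc ∑ u ∈ G.filter (fun u => u.2.1 = c), (((A u.1).filter (fun x => ψ x = u.2.1)).card) ^ 2
              ≤ ∑ u ∈ G.filter (fun u => u.2.1 = c), ((P.filter (fun x => ψ x = c)).card) ^ 2 := by
                refine sum_le_sum fun u hu => ?_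
                rw [mem_filter] at hu
                rw [hu.2]
                refine Nat.pow_le_pow_left (card_le_card ?_) 2
                exact filter_subset_filter _ (hA _ (hGm u hu.1).1)
            _ = (G.filter (fun u => u.2.1 = c)).card * ((P.filter (fun x => ψ x = c)).card) ^ 2 := by
                rw [sum_const, smul_eq_mul]
            _ ≤ 2 * B * (2 * ((P.filter (fun x => ψ x = c)).offDiag).card) :=
                Nat.mul_le_mul hcard (ref2_sq_le h2c)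
    _ = 4 * B * prs P ψ := by
        rw [← ref2_sum_offDiag, mul_sum]
        refine sum_congr rfl fun c _ => ?_
        ring

/-! ### number of separated colours -/

theorem ref2_cr (hlinex : LINEX) (P : Finset Pl) (ψ ψ' : Pl → ℕ) {J : ℕ} {m : ℕ → Fin J → ℕ}
    (fs : ∀ c j, Arr (m c j)) (B : ℕ) (hB : ∀ c, 2 * ∑ j, m c j + 1 ≤ B)
    (h1 : ∀ x ∈ P, ∀ y ∈ P, x ≠ y → ψ' x = ψ' y → ψ x = ψ y ∧ Conn (fs (ψ x)) x y)
    (h2 : ∀ x ∈ P, ∀ y ∈ P, ψ x = ψ y → Conn (fs (ψ x)) x y → ψ' x = ψ' y) {k : ℝ}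
    (hk : CrLe P ψ k) : CrLe P ψ' (k * B) := by
  intro u v w huv
  -- representatives
  have hr : ∀ c ∈ sepcol P ψ' u v w, ∃ p ∈ P, ψ' p = c ∧ ψ p ∈ sepcol P ψ u v w ∧
      ∃ o, lin u v w o = 0 ∧ Conn (fs (ψ p)) p o := by
    intro c hc
    unfold sepcol at hc
    obtain ⟨s, hs, rfl⟩ := mem_image.1 hc
    rw [mem_filter, mem_offDiag] at hs
    obtain ⟨⟨g1, g2, g3⟩, g4, g5⟩ := hs
    obtain ⟨g6, g7⟩ := h1 s.1 g1 s.2 g2 g3 g4
    refine ⟨s.1, g1, rfl, ?_, ref2_line (fs (ψ s.1)) g7 u v w g5⟩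
    unfold sepcol
    exact mem_image.2 ⟨s, mem_filter.2 ⟨mem_offDiag.2 ⟨g1, g2, g3⟩, g6, g5⟩, rfl⟩
  choose! p hp1 hp2 hp3 o ho1 ho2 using hr
  have hcard : (sepcol P ψ' u v w).card ≤ B * (sepcol P ψ u v w).card := by
    refine card_le_mul_card_image_of_maps_to (f := fun c => ψ (p c)) (fun c hc => hp3 c hc) B
      fun c0 hc0 => ?_
    set F := (sepcol P ψ' u v w).filter (fun c => ψ (p c) = c0) with hF
    have hinj : Set.InjOn o F := by
      intro a ha b hb hab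
      simp only [hF, coe_filter, Set.mem_ofPred_eq] at ha hb
      by_contra hne
      have e1 := ho2 a ha.1
      have e2 := ho2 b hb.1
      rw [ha.2] at e1
      rw [hb.2, ← hab] at e2
      obtain ⟨T1, t1, t2, t3, t4⟩ := e1
      obtain ⟨T2, s1, s2, s3, s4⟩ := e2
      have hc : Conn (fs c0) (p a) (p b) := by
        refine ⟨T1 ∪ T2, IsPreconnected.union (o a) t3 s3 t1 s1, Or.inl t2, Or.inr s2, ?_⟩
        rintro z (hz | hz)
        · exact t4 z hz
        · exact s4 z hz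
      have h3 := h2 (p a) (hp1 a ha.1) (p b) (hp1 b hb.1) (ha.2.trans hb.2.symm)
        (by rw [ha.2]; exact hc)
      rw [hp2 a ha.1, hp2 b hb.1] at h3
      exact hne h3
    rw [← card_image_of_injOn hinj]
    refine (hlinex J (m c0) (fs c0) u v w huv (F.image o) ?_ ?_).trans (hB c0)
    · intro x hx
      obtain ⟨a, ha, rfl⟩ := mem_image.1 hx
      rw [hF, mem_filter] at ha
      refine ⟨ho1 a ha.1, ?_⟩
      have e1 := ho2 a ha.1
      rw [ha.2] at e1
      obtain ⟨T1, t1, t2, t3, t4⟩ := e1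
      exact t4 _ t3
    · intro x hx y hy hxy hT
      obtain ⟨a, ha, rfl⟩ := mem_image.1 hx
      obtain ⟨b, hb, rfl⟩ := mem_image.1 hy
      rw [hF, mem_filter] at ha hb
      have e1 := ho2 a ha.1
      have e2 := ho2 b hb.1
      rw [ha.2] at e1
      rw [hb.2] at e2
      obtain ⟨T1, t1, t2, t3, t4⟩ := e1
      obtain ⟨T2, s1, s2, s3, s4⟩ := e2
      obtain ⟨T3, r1, r2, r3, r4⟩ := hT
      have hc : Conn (fs c0) (p a) (p b) := by
        refine ⟨(T1 ∪ T3) ∪ T2, IsPreconnected.union (o b) (Or.inr r3) s3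
          (IsPreconnected.union (o a) t3 r2 t1 r1) s1, Or.inl (Or.inl t2), Or.inr s2, ?_⟩
        rintro z ((hz | hz) | hz)
        · exact t4 z hz
        · exact r4 z hz
        · exact s4 z hz
      have h3 := h2 (p a) (hp1 a ha.1) (p b) (hp1 b hb.1) (ha.2.trans hb.2.symm)
        (by rw [ha.2]; exact hc)
      rw [hp2 a ha.1, hp2 b hb.1] at h3
      exact hxy (by rw [h3])
  have h3 : ((sepcol P ψ' u v w).card : ℝ) ≤ ((sepcol P ψ u v w).card : ℝ) * B := by
    rw [mul_comm]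
    exact_mod_cast hcard
  refine h3.trans ?_
  have := hk u v w huv
  gcongr

/-! ### the count -/

theorem ref2_NO_eq (P : Finset Pl) (χ ψ : Pl → ℕ) :
    NO P χ ψ = ∑ r ∈ P.offDiag.filter (fun r => χ r.1 = χ r.2),
    (P.offDiag.filter (fun s => ψ s.1 = ψ s.2 ∧ Rel s.1 s.2 r.1 r.2 ∧
      ori r.1 r.2 s.1 * ori r.1 r.2 s.2 < 0)).card := by
  unfold NO
  rw [card_filter, sum_product, sum_filter]
  refine sum_congr rfl fun r _ => ?_
  split_ifs with h
  · rw [card_filter]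
    refine sum_congr rfl fun s _ => ?_
    simp [h]
  · refine sum_eq_zero fun s _ => ?_
    simp [h]

theorem ref2_NN_eq (P : Finset Pl) (χ ψ : Pl → ℕ) :
    NN P χ ψ = ∑ r ∈ P.offDiag.filter (fun r => χ r.1 = χ r.2),
    (P.offDiag.filter (fun s => ψ s.1 = ψ s.2 ∧ Rel s.1 s.2 r.1 r.2)).card := by
  unfold NN
  rw [card_filter, sum_product, sum_filter]
  refine sum_congr rfl fun r _ => ?_
  split_ifs with h
  · rw [card_filter]
    refine sum_congr rfl fun s _ => ?_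
    simp [h]
  · refine sum_eq_zero fun s _ => ?_
    simp [h]

theorem ref2_of (hsym : SYM) (hpart : PART) (hcross : CROSS2) (hexc : EXC) (hlinex : LINEX) :
    REF2 := by
  intro P χ ψ cψ I hI hcr
  have hp : ∀ c : ℕ, ∃ (m : Fin (2 * I) → ℕ) (fs : ∀ j, Arr (m j)), (∀ j, fs j ≠ 0) ∧
      ∑ j, m j ≤ 4 * 2 ^ I ∧
      (((P.filter (fun x => ψ x = c)).offDiag.filter
        (fun s => ∀ j, 0 < ev (fs j) s.1 * ev (fs j) s.2)).card : ℝ) ≤
      7 * ((P.filter (fun x => ψ x = c)).card : ℝ) ^ 2 / 4 ^ I := fun c => hpart I _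
  choose m fs hfs hm hfs' using hp
  -- the new colouring
  let key3 : Pl → (ℕ × Set Pl) ⊕ Pl := fun x =>
    if x ∈ NZ (fs (ψ x)) then Sum.inl (ψ x, connectedComponentIn (NZ (fs (ψ x))) x)
    else Sum.inr x
  obtain ⟨ψ', hψ'⟩ := ref_enc key3 P
  have hk1 : ∀ x ∈ P, ∀ y ∈ P, x ≠ y → ψ' x = ψ' y → ψ x = ψ y ∧ Conn (fs (ψ x)) x y := by
    intro x hx y hy hxy h
    have h := (hψ' x hx y hy).1 h
    simp only [key3] at h
    split_ifs at h with h1 h2 h2
    · have h3 := Sum.inl.inj h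
      have h4 : ψ x = ψ y := congrArg Prod.fst h3
      have h5 : connectedComponentIn (NZ (fs (ψ x))) x =
        connectedComponentIn (NZ (fs (ψ y))) y := congrArg Prod.snd h3
      refine ⟨h4, ?_⟩
      rw [← h4] at h2 h5
      exact (ref2_conn_iff _ h1 h2).2 h5
    · exact absurd (Sum.inr.inj h) hxy
  have hk2 : ∀ x ∈ P, ∀ y ∈ P, ψ x = ψ y → Conn (fs (ψ x)) x y → ψ' x = ψ' y := by
    intro x hx y hy h1 h2
    refine (hψ' x hx y hy).2 ?_
    have h3 : x ∈ NZ (fs (ψ x)) := by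
      obtain ⟨T, t1, t2, t3, t4⟩ := h2
      exact t4 x t2
    have h4 : y ∈ NZ (fs (ψ x)) := by
      obtain ⟨T, t1, t2, t3, t4⟩ := h2
      exact t4 y t3
    have h5 : y ∈ NZ (fs (ψ y)) := by rw [← h1]; exact h4
    simp only [key3, if_pos h3, if_pos h5]
    congr 1
    rw [Prod.mk.injEq]
    refine ⟨h1, ?_⟩
    have := (ref2_conn_iff _ h3 h4).1 h2
    rw [this, ← h1]
  refine ⟨ψ', ?_, ?_, ?_⟩
  · -- number of pairs
    have h1 : prs P ψ' ≤ ∑ c ∈ P.image ψ, ((P.filter (fun x => ψ x = c)).offDiag.filter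
        (fun s => ∀ j, 0 < ev (fs c j) s.1 * ev (fs c j) s.2)).card := by
      unfold prs
      refine le_trans (card_le_card ?_) card_biUnion_le
      intro s hs
      rw [mem_filter, mem_offDiag] at hs
      obtain ⟨⟨hs1, hs2, hs3⟩, hs4⟩ := hs
      have h2 := hk1 s.1 hs1 s.2 hs2 hs3 hs4
      rw [mem_biUnion]
      refine ⟨ψ s.1, mem_image_of_mem ψ hs1, ?_⟩
      rw [mem_filter, mem_offDiag, mem_filter, mem_filter]
      exact ⟨⟨⟨hs1, rfl⟩, ⟨hs2, h2.1.symm⟩, hs3⟩, fun j => ref2_sign _ h2.2 j⟩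
    have h2 : ∀ c ∈ P.image ψ, (((P.filter (fun x => ψ x = c)).offDiag.filter
        (fun s => ∀ j, 0 < ev (fs c j) s.1 * ev (fs c j) s.2)).card : ℝ) ≤
        14 * (((P.filter (fun x => ψ x = c)).offDiag).card : ℝ) / 4 ^ I := by
      intro c _
      rcases le_or_gt 2 (P.filter (fun x => ψ x = c)).card with h3 | h3
      · refine (hfs' c).trans ?_
        have h4 : ((P.filter (fun x => ψ x = c)).card : ℝ) ^ 2 ≤
            2 * (((P.filter (fun x => ψ x = c)).offDiag).card : ℝ) := by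
          exact_mod_cast ref2_sq_le h3
        rw [div_le_div_iff_of_pos_right (by positivity)]
        linarith
      · have h4 : (P.filter (fun x => ψ x = c)).offDiag = ∅ := by
          rw [← card_eq_zero, offDiag_card]
          have : (P.filter (fun x => ψ x = c)).card = 0 ∨ (P.filter (fun x => ψ x = c)).card = 1 := by
            omega
          rcases this with h5 | h5 <;> rw [h5]
        rw [h4]
        simp
    calc (prs P ψ' : ℝ) ≤ ∑ c ∈ P.image ψ, (((P.filter (fun x => ψ x = c)).offDiag.filter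
        (fun s => ∀ j, 0 < ev (fs c j) s.1 * ev (fs c j) s.2)).card : ℝ) := by exact_mod_cast h1
      _ ≤ ∑ c ∈ P.image ψ, 14 * (((P.filter (fun x => ψ x = c)).offDiag).card : ℝ) / 4 ^ I :=
        sum_le_sum h2
      _ = 14 * (∑ c ∈ P.image ψ, (((P.filter (fun x => ψ x = c)).offDiag).card : ℝ)) / 4 ^ I := by
        rw [← sum_div, ← mul_sum]
      _ = 14 * prs P ψ / 4 ^ I := by
        rw [← ref2_sum_offDiag P ψ]
        push_cast
        rfl
  · have h1 := ref2_cr hlinex P ψ ψ' fs (18 * 2 ^ I) (fun c => by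
      have := hm c
      have h0 : 1 ≤ 2 ^ I := Nat.one_le_two_pow
      omega) hk1 hk2 hcr
    have h2 : ((18 * 2 ^ I : ℕ) : ℝ) = 18 * 2 ^ I := by push_cast; rfl
    rw [h2] at h1
    exact h1
  · -- the count
    set B : ℕ := 18 * 2 ^ I with hB
    have hpow : 1 ≤ 2 ^ I := Nat.one_le_two_pow
    have hI2 : I < 2 ^ I := Nat.lt_two_pow_self
    rw [ref2_NO_eq]
    set Q := P.offDiag.filter (fun r => χ r.1 = χ r.2) with hQ
    have hQc : Q.card = prs P χ := rfl
    have hne : ∀ r ∈ Q, r.1 ≠ r.2 := by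
      intro r hr
      rw [hQ, mem_filter, mem_offDiag] at hr
      exact hr.1.2.2
    set A : Pl × Pl → Finset Pl := fun r => act2 P ψ r.1 r.2 with hA
    have hAP : ∀ r, A r ⊆ P := fun r => by
      simp only [hA, act2, act]; exact filter_subset _ _
    -- one pair of foci
    have hone : ∀ r ∈ Q, (P.offDiag.filter (fun s => ψ s.1 = ψ s.2 ∧ Rel s.1 s.2 r.1 r.2 ∧
        ori r.1 r.2 s.1 * ori r.1 r.2 s.2 < 0)).card ≤
        4 * B * ((P.offDiag.filter (fun s => ψ' s.1 = ψ' s.2 ∧ Rel s.1 s.2 r.1 r.2)).card +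
          2 * (A r).card) +
        ∑ t ∈ ((AA (A r) r.1 r.2).image (key ψ r.1 r.2)).filter (fun t => Exc (fs t.1) r.1 r.2 t.2),
          (((A r).filter (fun x => ψ x = t.1)).card) ^ 2 := by
      intro r hr
      have h1 : (P.offDiag.filter (fun s => ψ s.1 = ψ s.2 ∧ Rel s.1 s.2 r.1 r.2 ∧
          ori r.1 r.2 s.1 * ori r.1 r.2 s.2 < 0)).card ≤
          ((A r).offDiag.filter (fun s => ψ s.1 = ψ s.2 ∧ Rel r.1 r.2 s.1 s.2)).card := by
        refine card_le_card fun s hs => ?_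
        rw [mem_filter, mem_offDiag] at hs ⊢
        obtain ⟨⟨g1, g2, g3⟩, g4, g5, g6⟩ := hs
        refine ⟨⟨ref2_mem_act2 g1 g2 g3 g4 g6.le, ?_, g3⟩, g4, hsym _ _ _ _ g5⟩
        refine ref2_mem_act2 g2 g1 g3.symm g4.symm ?_
        rw [mul_comm]; exact g6.le
      refine h1.trans ((ref2_one (A r) ψ ψ' fs B (hne r hr) ?_).trans ?_)
      · intro c h hnd hexc'
        have hne' : ∀ j, ∃ x, dd r.1 x - dd r.2 x = h ∧ ev (fs c j) x ≠ 0 := by
          intro j
          by_contra hcon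
          push Not at hcon
          exact hexc' ⟨j, hcon⟩
        obtain ⟨hz, ι, hι, hι'⟩ := hcross (2 * I) (m c) (fs c) r.1 r.2 h hnd hne'
        have hmc := hm c
        refine ⟨fun S hS => (hz S hS).trans (by omega), ι, fun x => ?_, ?_⟩
        · have := hι x; omega
        · intro x hx y hy e1 e2 e3 e4 e5 e6 e7
          refine hk2 x (hAP r hx) y (hAP r hy) (e1.trans e2.symm) ?_
          rw [e1]
          exact hι' x y e3 e4 e5 e6 e7
      · refine Nat.add_le_add_right (Nat.mul_le_mul_left _ (Nat.add_le_add_right ?_ _)) _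
        refine card_le_card fun s hs => ?_
        rw [mem_filter, mem_offDiag] at hs ⊢
        exact ⟨⟨hAP r hs.1.1, hAP r hs.1.2.1, hs.1.2.2⟩, hs.2.1, hsym _ _ _ _ hs.2.2⟩
    have hex := ref2_exc hexc P Q ψ fs B (fun c => by
      rw [sum_add_distrib, ← mul_sum]
      simp only [sum_const, card_univ, Fintype.card_fin, smul_eq_mul, mul_one]
      have := hm c
      omega) hfs A (fun s _ => hAP s) (fun s _ p hp => ref2_act2_two hp)
    have htot : (∑ r ∈ Q, (P.offDiag.filter (fun s => ψ s.1 = ψ s.2 ∧ Rel s.1 s.2 r.1 r.2 ∧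
        ori r.1 r.2 s.1 * ori r.1 r.2 s.2 < 0)).card) ≤
        4 * B * (NN P χ ψ' + 2 * ∑ r ∈ Q, (A r).card) + 4 * B * prs P ψ := by
      refine (sum_le_sum hone).trans ?_
      rw [sum_add_distrib, ← mul_sum, sum_add_distrib, ← mul_sum, ← ref2_NN_eq]
      exact Nat.add_le_add_left hex _
    have hsumA : ((∑ r ∈ Q, (A r).card : ℕ) : ℝ) ≤ Real.sqrt (2 * cψ * prs P ψ) * prs P χ := by
      push_cast
      calc ∑ r ∈ Q, ((A r).card : ℝ) ≤ ∑ r ∈ Q, Real.sqrt (2 * cψ * prs P ψ) :=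
            sum_le_sum fun r hr => ref2_act2_card hcr (hne r hr)
        _ = Real.sqrt (2 * cψ * prs P ψ) * prs P χ := by
            rw [sum_const, hQc, nsmul_eq_mul, mul_comm]
    have hBr : ((B : ℕ) : ℝ) = 18 * 2 ^ I := by rw [hB]; push_cast; rfl
    have htot' : ((∑ r ∈ Q, (P.offDiag.filter (fun s => ψ s.1 = ψ s.2 ∧ Rel s.1 s.2 r.1 r.2 ∧
        ori r.1 r.2 s.1 * ori r.1 r.2 s.2 < 0)).card : ℕ) : ℝ) ≤
        4 * (18 * 2 ^ I) * (NN P χ ψ' + 2 * ((∑ r ∈ Q, (A r).card : ℕ) : ℝ)) +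
          4 * (18 * 2 ^ I) * prs P ψ := by
      rw [← hBr]
      exact_mod_cast htot
    refine htot'.trans ?_
    have : (0 : ℝ) ≤ 4 * (18 * 2 ^ I) := by positivity
    have h6 : 2 * ((∑ r ∈ Q, (A r).card : ℕ) : ℝ) ≤
        2 * Real.sqrt (2 * cψ * prs P ψ) * prs P χ := by linarith
    gcongr

end Pool.Agent.H62.Per
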