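import Pool.Agent.H62.Per.Iter2
import Pool.Agent.H62.Per.Ref2
import Pool.Agent.H86.Per.Arms
import Pool.Agent.H28.PerExcl
import Pool.Agent.H49.PerSym
import Pool.Agent.H49.PerStart
import Pool.Agent.H51.Per.End
import Pool.Agent.H30.Per.Param
import Pool.Agent.H79.Per.Cross
import Pool.Agent.H79.Per.Exc
import Pool.Agent.H63.Per.Cross2
import Pool.Agent.H95.Per.Ham2
import Pool.Agent.H91.Per.Part

/-! Assembly of the linear lower bound for the number of distinct perimeters. -/

set_option autoImplicit false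

namespace Pool.Agent.H62.Per

theorem linear : LINEAR :=
  it2 Pool.Agent.H49.Per.sym
    (Pool.Agent.H86.Per.arms Pool.Agent.H49.Per.sym Pool.Agent.H28.PerExcl.excl)
    (ref2_of Pool.Agent.H49.Per.sym (Pool.Agent.H91.Per.part ham2)
      (Pool.Agent.H63.Per.cross2 Pool.Agent.H30.Per.param)
      (Pool.Agent.H79.Per.exc Pool.Agent.H30.Per.param Pool.Agent.H30.Per.two)
      Pool.Agent.H63.Per.linex)
    Pool.Agent.H49.Per.start' (Pool.Agent.H51.Per.end_of Pool.Agent.H30.Per.two)

end Pool.Agent.H62.Per
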