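import Pool.Agent.H62.Per.Defs

/-! Module ITER: the iteration. -/

set_option autoImplicit false

open Finset

namespace Pool.Agent.H62.Per

theorem iter_comm (hsym : SYM) (P : Finset Pl) (χ ψ : Pl → ℕ) : NN P χ ψ = NN P ψ χ := by
  classical
  unfold NN
  refine card_bij (fun s _ => (s.2, s.1)) (fun s hs => ?_) (fun s _ r _ h => ?_) (fun s hs => ?_)
  · simp only [mem_filter, mem_product] at hs ⊢
    exact ⟨⟨hs.1.2, hs.1.1⟩, hs.2.2.1, hs.2.1, hsym _ _ _ _ hs.2.2.2⟩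
  · simp only [Prod.mk.injEq] at h
    exact Prod.ext h.2 h.1
  · refine ⟨(s.2, s.1), ?_, rfl⟩
    simp only [mem_filter, mem_product] at hs ⊢
    exact ⟨⟨hs.1.2, hs.1.1⟩, hs.2.2.1, hs.2.1, hsym _ _ _ _ hs.2.2.2⟩

/-- final contradiction -/
theorem iter_end (hend : END) (P : Finset Pl) (hP : 1 ≤ P.card) (χ ψ : Pl → ℕ) (b : ℝ)
    (h1 : (prs P χ : ℝ) ≤ P.card) (h2 : (prs P ψ : ℝ) + P.card ≤ b)
    (h3 : 16 * (P.card : ℝ) * b ≤ NN P χ ψ) : False := by
  have hn : (1 : ℝ) ≤ P.card := by exact_mod_cast hP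
  set n : ℝ := (P.card : ℝ) with hnd
  have hE : ((NN P χ ψ : ℕ) : ℝ) ^ 2 ≤ prs P χ * (5 * n * (prs P ψ) ^ 2 +
      2 * prs P ψ * prs P χ) := by
    have := hend P χ ψ
    rw [hnd]
    exact_mod_cast this
  have p1 : (0 : ℝ) ≤ prs P χ := Nat.cast_nonneg _
  have p2 : (0 : ℝ) ≤ prs P ψ := Nat.cast_nonneg _
  have hb : 1 ≤ b := by linarith
  have hb2 : (prs P ψ : ℝ) ≤ b := by linarith
  have h4 : (16 * n * b) ^ 2 ≤ ((NN P χ ψ : ℕ) : ℝ) ^ 2 :=
    pow_le_pow_left₀ (by positivity) h3 2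
  have h5 : (prs P χ : ℝ) * (5 * n * (prs P ψ) ^ 2 + 2 * prs P ψ * prs P χ) ≤
      n * (5 * n * b ^ 2 + 2 * b * n) := by
    gcongr
  have h6 : 0 < n ^ 2 * b := by positivity
  nlinarith [mul_nonneg (sq_nonneg n) (sub_nonneg.2 hb), mul_nonneg h6.le (sub_nonneg.2 hb)]

/-- one step -/
theorem iter_step (hsym : SYM) (href : REF) (hend : END) (P : Finset Pl) (hP : 1 ≤ P.card)
    (χ ψ : Pl → ℕ) (a b : ℝ) (h1 : (prs P χ : ℝ) + P.card ≤ a) (h2 : (prs P ψ : ℝ) + P.card ≤ b)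
    (h3 : 16 * (P.card : ℝ) * a ≤ NN P χ ψ) (h4 : a ≤ (P.card : ℝ) ^ 2) (h5 : 168 * b ≤ a) :
    ∃ (χ' : Pl → ℕ) (b' : ℝ), (prs P χ' : ℝ) + P.card ≤ b' ∧
      16 * (P.card : ℝ) * b ≤ NN P ψ χ' ∧ b' * a ≤ 400000 * b ^ 2 := by
  have hn : (1 : ℝ) ≤ P.card := by exact_mod_cast hP
  have p2 : (0 : ℝ) ≤ prs P ψ := Nat.cast_nonneg _
  have p1 : (0 : ℝ) ≤ prs P χ := Nat.cast_nonneg _
  have hbn : (P.card : ℝ) ≤ b := by linarith
  set n : ℝ := (P.card : ℝ) with hnd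
  have hb : 0 < b := by linarith
  have ha : 0 < a := by linarith
  have hx : 1 ≤ a / (84 * b) := by
    rw [le_div_iff₀ (by positivity)]; linarith
  obtain ⟨I, hI1, hI2⟩ := exists_nat_pow_near hx (one_lt_two)
  have hI : 1 ≤ I := by
    by_contra hcon
    have h0 : I = 0 := by omega
    rw [h0, zero_add, pow_one, div_lt_iff₀ (by positivity)] at hI2
    linarith
  rw [le_div_iff₀ (by positivity)] at hI1
  rw [div_lt_iff₀ (by positivity)] at hI2
  obtain ⟨χ', hχ1, hχ2⟩ := href P χ ψ I hI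
  have hχ3 : (NN P χ ψ : ℝ) ≤ 4 * (18 * 2 ^ I) * (NN P χ' ψ + 2 * n * prs P ψ) +
      2 * (18 * 2 ^ I) * (prs P χ + n) := by
    rw [hnd]
    exact_mod_cast hχ2
  set s : ℝ := (2 : ℝ) ^ I with hs
  have hs0 : 0 < s := by positivity
  have h4I : (4 : ℝ) ^ I = s ^ 2 := by
    rw [hs, ← pow_mul, mul_comm I 2, pow_mul]; norm_num
  rw [pow_succ, ← hs] at hI2
  rw [h4I] at hχ1
  -- the count stays large
  have hN : 16 * n * b ≤ (NN P χ' ψ : ℝ) := by
    have e1 : 16 * n * a ≤ 72 * s * ((NN P χ' ψ : ℝ) + 2 * n * b) + 36 * s * a := by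
      refine h3.trans (hχ3.trans ?_)
      have : 2 * n * (prs P ψ : ℝ) ≤ 2 * n * b := by
        have : (prs P ψ : ℝ) ≤ b := by linarith
        gcongr
      nlinarith
    have e2 : a ≤ n * b := by nlinarith
    have e3 : s * (84 * b) ≤ a := hI1
    have e4 : 36 * s * a ≤ 36 * s * (n * b) := by gcongr
    have e5 : 16 * n * (s * (84 * b)) ≤ 16 * n * a := by gcongr
    have e6 : 72 * s * (NN P χ' ψ : ℝ) ≥ 72 * s * (16 * n * b) := by nlinarith
    exact le_of_mul_le_mul_left e6 (by positivity)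
  -- number of pairs
  have hpr : (prs P χ' : ℝ) ≤ 7 * a / s ^ 2 := by
    refine hχ1.trans ?_
    gcongr
  rcases le_or_gt (7 * a / s ^ 2) n with hc | hc
  · exact (iter_end hend P hP χ' ψ b (hpr.trans hc) h2 hN).elim
  · refine ⟨χ', 14 * a / s ^ 2, ?_, ?_, ?_⟩
    · have : 14 * a / s ^ 2 = 7 * a / s ^ 2 + 7 * a / s ^ 2 := by ring
      rw [this]
      linarith
    · rw [iter_comm hsym P ψ χ']
      exact hN
    · rw [div_mul_eq_mul_div, div_le_iff₀ (by positivity)]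
      have e1 : a ≤ 168 * s * b := by linarith
      have e2 : a * a ≤ (168 * s * b) * (168 * s * b) := by gcongr
      nlinarith [mul_pos (mul_pos hs0 hs0) (mul_pos hb hb)]

/-- the iteration -/
theorem iter_loop (hsym : SYM) (href : REF) (hend : END) (P : Finset Pl) (hP : 1 ≤ P.card)
    (ρ : ℝ) (hρ : 168 ≤ ρ) : ∀ (j : ℕ) (χ ψ : Pl → ℕ) (a b : ℝ), (prs P χ : ℝ) + P.card ≤ a →
    (prs P ψ : ℝ) + P.card ≤ b → 16 * (P.card : ℝ) * a ≤ NN P χ ψ → a ≤ (P.card : ℝ) ^ 2 →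
    ρ * 400000 ^ j * b ≤ a → b < P.card * ρ ^ j → False := by
  intro j
  induction j with
  | zero =>
    intro χ ψ a b _ h2 _ _ _ h6
    have : (0 : ℝ) ≤ prs P ψ := Nat.cast_nonneg _
    rw [pow_zero, mul_one] at h6
    linarith
  | succ j ih =>
    intro χ ψ a b h1 h2 h3 h4 h5 h6
    have hn : (1 : ℝ) ≤ P.card := by exact_mod_cast hP
    have p2 : (0 : ℝ) ≤ prs P ψ := Nat.cast_nonneg _
    have hb : 0 < b := by linarith
    have hΛ : (1 : ℝ) ≤ 400000 ^ j := one_le_pow₀ (by norm_num)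
    have hρΛ : 0 < ρ * 400000 ^ j := by positivity
    have h168 : 168 * b ≤ a := by
      refine le_trans ?_ h5
      rw [pow_succ]
      have : (168 : ℝ) ≤ ρ * (400000 ^ j * 400000) := by nlinarith
      gcongr
    have hba : b ≤ a := by linarith
    obtain ⟨χ', b', g1, g2, g3⟩ := iter_step hsym href hend P hP χ ψ a b h1 h2 h3 h4 h168
    have q : (0 : ℝ) ≤ prs P χ' := Nat.cast_nonneg _
    have hb' : 0 < b' := by linarith
    -- b' * (ρ 400000^j) ≤ b
    have h7 : ρ * 400000 ^ j * b' ≤ b := by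
      have e1 : b' * (ρ * 400000 ^ (j + 1) * b) ≤ 400000 * b ^ 2 :=
        (mul_le_mul_of_nonneg_left h5 hb'.le).trans g3
      rw [pow_succ] at e1
      have e2 : (400000 * b) * (ρ * 400000 ^ j * b') ≤ (400000 * b) * b := by nlinarith
      exact le_of_mul_le_mul_left e2 (by positivity)
    refine ih ψ χ' b b' h2 g1 g2 (hba.trans h4) h7 ?_
    have h8 : ρ * b' ≤ b := by
      refine le_trans ?_ h7
      have : ρ ≤ ρ * 400000 ^ j := le_mul_of_one_le_right (by linarith) hΛ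
      gcongr
    rw [pow_succ] at h6
    have h9 : ρ * b' < ρ * (P.card * ρ ^ j) := by nlinarith
    exact lt_of_mul_lt_mul_left h9 (by linarith)

/-- the first step -/
theorem iter_first (hsym : SYM) (href : REF) (hstart : START) (hend : END) (P : Finset Pl)
    (hP : 9 ≤ P.card) (h4 : 4 * ((perims P).card + 2) ≤ P.card) (K : ℝ) (hK : 5344 ≤ K)
    (ht : ((perims P).card : ℝ) * K ≤ P.card) :
    ∃ (χ' : Pl → ℕ) (b' : ℝ), (prs P χ' : ℝ) + P.card ≤ b' ∧
      16 * (P.card : ℝ) * (P.card : ℝ) ^ 2 ≤ NN P (fun _ => 0) χ' ∧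
      b' * K ^ 2 ≤ 400000000 * (P.card : ℝ) ^ 2 := by
  have hS := hstart P hP h4
  have hn : (9 : ℝ) ≤ P.card := by exact_mod_cast hP
  have hS' : (P.card : ℝ) ^ 4 ≤ 2 * (perims P).card * (NN P (fun _ => 0) (fun _ => 0) +
      4 * (P.card : ℝ) ^ 3) := by exact_mod_cast hS
  set n : ℝ := (P.card : ℝ) with hnd
  set N0 : ℝ := (NN P (fun _ => 0) (fun _ => 0) : ℝ) with hN0
  have hN0' : 0 ≤ N0 := Nat.cast_nonneg _
  have hn0 : 0 < n := by linarith
  have hK0 : 0 < K := by linarith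
  -- `n^3 K ≤ 2 (N0 + 4 n^3)`
  have h5 : n ^ 3 * K ≤ 2 * (N0 + 4 * n ^ 3) := by
    have e1 : n ^ 4 * K ≤ n * (2 * (N0 + 4 * n ^ 3)) := by
      calc n ^ 4 * K ≤ 2 * (perims P).card * (N0 + 4 * n ^ 3) * K := by gcongr
        _ = ((perims P).card * K) * (2 * (N0 + 4 * n ^ 3)) := by ring
        _ ≤ n * (2 * (N0 + 4 * n ^ 3)) := by gcongr
    have e2 : n * (n ^ 3 * K) ≤ n * (2 * (N0 + 4 * n ^ 3)) := by nlinarith
    exact le_of_mul_le_mul_left e2 hn0
  have hx : 1 ≤ K / 2672 := by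
    rw [le_div_iff₀ (by norm_num)]; linarith
  obtain ⟨I, hI1, hI2⟩ := exists_nat_pow_near hx (one_lt_two)
  have hI : 1 ≤ I := by
    by_contra hcon
    have h0 : I = 0 := by omega
    rw [h0, zero_add, pow_one, div_lt_iff₀ (by norm_num)] at hI2
    linarith
  rw [le_div_iff₀ (by norm_num)] at hI1
  rw [div_lt_iff₀ (by norm_num)] at hI2
  obtain ⟨χ', hχ1, hχ2⟩ := href P (fun _ => 0) (fun _ => 0) I hI
  have hprs : prs P (fun _ => 0) + P.card = P.card ^ 2 := by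
    unfold prs
    rw [filter_true_of_mem (fun _ _ => rfl), offDiag_card, sq]
    have : P.card ≤ P.card * P.card := Nat.le_mul_of_pos_left _ (by omega)
    omega
  have hprs' : (prs P (fun _ => 0) : ℝ) + n = n ^ 2 := by
    rw [hnd]; exact_mod_cast hprs
  have hχ3 : N0 ≤ 4 * (18 * 2 ^ I) * (NN P χ' (fun _ => 0) + 2 * n * prs P (fun _ => 0)) +
      2 * (18 * 2 ^ I) * (prs P (fun _ => 0) + n) := by
    rw [hnd, hN0]
    exact_mod_cast hχ2
  set s : ℝ := (2 : ℝ) ^ I with hs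
  have hs0 : 0 < s := by positivity
  have h4I : (4 : ℝ) ^ I = s ^ 2 := by
    rw [hs, ← pow_mul, mul_comm I 2, pow_mul]; norm_num
  rw [pow_succ, ← hs] at hI2
  rw [h4I, hprs'] at hχ1
  rw [hprs'] at hχ3
  have hN : 16 * n * n ^ 2 ≤ (NN P χ' (fun _ => 0) : ℝ) := by
    have e1 : N0 ≤ 72 * s * ((NN P χ' (fun _ => 0) : ℝ) + 2 * n * n ^ 2) + 36 * s * n ^ 2 := by
      refine hχ3.trans ?_
      have : 2 * n * (prs P (fun _ => 0) : ℝ) ≤ 2 * n * n ^ 2 := by
        have : (prs P (fun _ => 0) : ℝ) ≤ n ^ 2 := by linarith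
        gcongr
      nlinarith
    have e2 : n ^ 3 * (s * 2672) ≤ n ^ 3 * K := by gcongr
    have hs1 : 1 ≤ s := one_le_pow₀ (by norm_num)
    have e3 : n ^ 2 ≤ n ^ 3 := by nlinarith [sq_nonneg n]
    have e4 : 36 * s * n ^ 2 ≤ 36 * s * n ^ 3 := by gcongr
    have e5 : n ^ 3 ≤ s * n ^ 3 := le_mul_of_one_le_left (by positivity) hs1
    have e6 : 72 * s * (16 * n * n ^ 2) ≤ 72 * s * (NN P χ' (fun _ => 0) : ℝ) := by
      nlinarith
    exact le_of_mul_le_mul_left e6 (by positivity)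
  rcases le_or_gt (7 * n ^ 2 / s ^ 2) n with hc | hc
  · exact (iter_end hend P (by omega) χ' (fun _ => 0) (n ^ 2) (hχ1.trans hc) hprs'.le hN).elim
  · refine ⟨χ', 14 * n ^ 2 / s ^ 2, ?_, ?_, ?_⟩
    · have : 14 * n ^ 2 / s ^ 2 = 7 * n ^ 2 / s ^ 2 + 7 * n ^ 2 / s ^ 2 := by ring
      rw [this]
      linarith
    · rw [iter_comm hsym P (fun _ => 0) χ']
      exact hN
    · rw [div_mul_eq_mul_div, div_le_iff₀ (by positivity)]
      have e1 : K ≤ 5344 * s := by linarith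
      have e2 : K ^ 2 ≤ (5344 * s) ^ 2 := pow_le_pow_left₀ hK0.le e1 2
      have e3 : 14 * n ^ 2 * K ^ 2 ≤ 14 * n ^ 2 * (5344 * s) ^ 2 := by gcongr
      nlinarith [mul_pos (pow_pos hn0 2) (pow_pos hs0 2)]

theorem iter : ITER := by
  intro hsym href hstart hend
  refine ⟨40, by norm_num, fun P hP => ?_⟩
  by_contra hcon
  push Not at hcon
  have hn : (3 : ℝ) ≤ P.card := by exact_mod_cast hP
  set n : ℝ := (P.card : ℝ) with hnd
  set t : ℝ := ((perims P).card : ℝ) with htd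
  set ℓ : ℝ := Real.sqrt (Real.log n) with hℓ
  have hn0 : 0 < n := by linarith
  have hlog : 1 ≤ Real.log n := by
    have h1 : Real.log (Real.exp 1) ≤ Real.log n := by
      refine Real.log_le_log (Real.exp_pos 1) ?_
      have := Real.exp_one_lt_d9
      linarith
    rwa [Real.log_exp] at h1
  have hℓ1 : 1 ≤ ℓ := by
    rw [hℓ, ← Real.sqrt_one]; exact Real.sqrt_le_sqrt hlog
  have hℓsq : ℓ ^ 2 = Real.log n := by rw [hℓ]; exact Real.sq_sqrt (by linarith)
  -- at least one perimeter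
  have ht1 : 1 ≤ t := by
    have : 0 < (perims P).card := by
      obtain ⟨x, hx, y, hy, z, hz, hxy, hxz, hyz⟩ := Finset.two_lt_card.1 hP
      refine card_pos.2 ⟨pr x y z, mem_image.2 ⟨(x, y, z), ?_, rfl⟩⟩
      simp [hx, hy, hz, hxy, hxz, hyz]
    rw [htd]; exact_mod_cast this
  have hexp : 0 < Real.exp (-40 * ℓ) := Real.exp_pos _
  have hinv : Real.exp (-40 * ℓ) * Real.exp (40 * ℓ) = 1 := by
    rw [← Real.exp_add]; ring_nf; exact Real.exp_zero
  set K : ℝ := Real.exp (40 * ℓ) with hK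
  have hK0 : 0 < K := Real.exp_pos _
  have htK : t * K ≤ n := by
    have := mul_le_mul_of_nonneg_right hcon.le hK0.le
    rw [mul_assoc, hinv, mul_one] at this
    exact this
  have hKn : K ≤ n := by nlinarith
  -- `K` is large
  have hK1 : (2 : ℝ) ^ 57 ≤ K := by
    have h1 : Real.exp 1 ^ 40 ≤ K := by
      rw [hK, ← Real.exp_nat_mul]
      exact Real.exp_le_exp.2 (by push_cast; linarith)
    refine le_trans ?_ h1
    have h2 : (2.7 : ℝ) ≤ Real.exp 1 := by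
      have := Real.exp_one_gt_d9
      linarith
    have h3 : (2.7 : ℝ) ^ 40 ≤ Real.exp 1 ^ 40 := pow_le_pow_left₀ (by norm_num) h2 40
    refine le_trans ?_ h3
    norm_num
  have hK2 : (5344 : ℝ) ≤ K := le_trans (by norm_num) hK1
  have hP9 : 9 ≤ P.card := by
    have : (9 : ℝ) ≤ P.card := by rw [← hnd]; linarith
    exact_mod_cast this
  have h4 : 4 * ((perims P).card + 2) ≤ P.card := by
    have : 4 * (t + 2) ≤ n := by nlinarith
    rw [htd, hnd] at this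
    exact_mod_cast this
  obtain ⟨χ', b', g1, g2, g3⟩ := iter_first hsym href hstart hend P hP9 h4 K hK2 htK
  -- parameters
  set M : ℕ := ⌈ℓ⌉₊ with hM
  have hM1 : ℓ ≤ M := Nat.le_ceil _
  have hM2 : (M : ℝ) ≤ ℓ + 1 := (Nat.ceil_lt_add_one (by linarith)).le
  set ρ : ℝ := 168 * Real.exp ℓ with hρ
  have hexp1 : 1 ≤ Real.exp ℓ := Real.one_le_exp (by linarith)
  have hρ1 : 168 ≤ ρ := by rw [hρ]; linarith
  have hprs : prs P (fun _ => 0) + P.card = P.card ^ 2 := by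
    unfold prs
    rw [filter_true_of_mem (fun _ _ => rfl), offDiag_card, sq]
    have : P.card ≤ P.card * P.card := Nat.le_mul_of_pos_left _ (by omega)
    omega
  have hprs' : (prs P (fun _ => 0) : ℝ) + n = n ^ 2 := by
    rw [hnd]; exact_mod_cast hprs
  -- the main inequality
  have hmain : 400000000 * (ρ * 400000 ^ M) ≤ K ^ 2 := by
    have e1 : (400000 : ℝ) ^ M ≤ Real.exp (13 * (ℓ + 1)) := by
      have e2 : (400000 : ℝ) ≤ Real.exp 13 := by
        have h2 : (2.7 : ℝ) ≤ Real.exp 1 := by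
          have := Real.exp_one_gt_d9
          linarith
        have h3 : (2.7 : ℝ) ^ 13 ≤ Real.exp 1 ^ 13 := pow_le_pow_left₀ (by norm_num) h2 13
        have h4 : Real.exp 1 ^ 13 = Real.exp 13 := by
          rw [← Real.exp_nat_mul]; norm_num
        rw [← h4]
        refine le_trans ?_ h3
        norm_num
      calc (400000 : ℝ) ^ M ≤ Real.exp 13 ^ M := pow_le_pow_left₀ (by norm_num) e2 M
        _ = Real.exp (M * 13) := by rw [← Real.exp_nat_mul]
        _ ≤ Real.exp (13 * (ℓ + 1)) := Real.exp_le_exp.2 (by linarith)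
    have e3 : (400000000 * 168 : ℝ) ≤ Real.exp 26 := by
      have h2 : (2.7 : ℝ) ≤ Real.exp 1 := by
        have := Real.exp_one_gt_d9
        linarith
      have h3 : (2.7 : ℝ) ^ 26 ≤ Real.exp 1 ^ 26 := pow_le_pow_left₀ (by norm_num) h2 26
      have h4 : Real.exp 1 ^ 26 = Real.exp 26 := by
        rw [← Real.exp_nat_mul]; norm_num
      rw [← h4]
      refine le_trans ?_ h3
      norm_num
    calc 400000000 * (ρ * 400000 ^ M) = (400000000 * 168) * (Real.exp ℓ * 400000 ^ M) := by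
          rw [hρ]; ring
      _ ≤ Real.exp 26 * (Real.exp ℓ * Real.exp (13 * (ℓ + 1))) := by gcongr
      _ = Real.exp (26 + (ℓ + 13 * (ℓ + 1))) := by rw [Real.exp_add, Real.exp_add]
      _ ≤ Real.exp (2 * (40 * ℓ)) := Real.exp_le_exp.2 (by linarith)
      _ = K ^ 2 := by rw [hK, ← Real.exp_nat_mul]; norm_num
  have p : (0 : ℝ) ≤ prs P χ' := Nat.cast_nonneg _
  have hb' : 0 < b' := by linarith
  -- ratio
  have hratio : ρ * 400000 ^ M * b' ≤ n ^ 2 := by
    have e1 : 400000000 * (ρ * 400000 ^ M) * b' ≤ 400000000 * n ^ 2 := by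
      calc 400000000 * (ρ * 400000 ^ M) * b' ≤ K ^ 2 * b' := by gcongr
        _ = b' * K ^ 2 := mul_comm _ _
        _ ≤ _ := g3
    linarith
  have hρM : n ≤ ρ ^ M := by
    have e1 : Real.exp ℓ ≤ ρ := by rw [hρ]; linarith
    calc n = Real.exp (Real.log n) := (Real.exp_log hn0).symm
      _ = Real.exp (ℓ * ℓ) := by rw [← hℓsq, sq]
      _ ≤ Real.exp (M * ℓ) := Real.exp_le_exp.2 (by gcongr)
      _ = Real.exp ℓ ^ M := by rw [← Real.exp_nat_mul]
      _ ≤ ρ ^ M := pow_le_pow_left₀ (by positivity) e1 M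
  have hΛ : (1 : ℝ) ≤ 400000 ^ M := one_le_pow₀ (by norm_num)
  refine iter_loop hsym href hend P (by omega) ρ hρ1 M (fun _ => 0) χ' (n ^ 2) b' hprs'.le g1 g2
    le_rfl hratio ?_
  -- `b' < n ρ^M`
  have e1 : 168 * b' ≤ n ^ 2 := by
    refine le_trans ?_ hratio
    have : (168 : ℝ) ≤ ρ * 400000 ^ M := by nlinarith
    gcongr
  have e2 : b' < n ^ 2 := by linarith
  calc b' < n ^ 2 := e2
    _ = n * n := sq n
    _ ≤ n * ρ ^ M := by gcongr

end Pool.Agent.H62.Per
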