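import Pool.Agent.H62.Per.Defs2
import Pool.Agent.H62.Per.Iter

/-! Module ITER2: the iteration for the linear lower bound. -/

set_option autoImplicit false

open Finset

namespace Pool.Agent.H62.Per

/-- a state of the iteration -/
def St (P : Finset Pl) (K D y z : ℝ) (χ ψ : Pl → ℕ) : Prop :=
  (prs P χ : ℝ) ≤ D * (P.card : ℝ) ^ 2 / y ^ 2 ∧ CrLe P χ y ∧
  (prs P ψ : ℝ) ≤ D * (P.card : ℝ) ^ 2 / z ^ 2 ∧ CrLe P ψ z ∧
  K * (P.card : ℝ) ^ 3 / (D * y * z) ≤ NN P χ ψ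

theorem CrLe.mono {P : Finset Pl} {χ : Pl → ℕ} {a b : ℝ} (h : CrLe P χ a) (hab : a ≤ b) :
    CrLe P χ b := fun u v w huv => (h u v w huv).trans hab

theorem it2_sqrt {n D y a : ℝ} (hn : 0 < n) (hD : 1 ≤ D) (hy : 0 < y) (ha0 : 0 ≤ a)
    (ha : a * y ^ 2 ≤ D * n ^ 2) :
    Real.sqrt (2 * y * a) * Real.sqrt y ≤ (142 / 100) * D * n := by
  have hD0 : 0 < D := by linarith
  refine le_of_sq_le_sq ?_ (by positivity)
  rw [mul_pow, Real.sq_sqrt hy.le, Real.sq_sqrt (by positivity)]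
  have e2 : D * n ^ 2 ≤ D ^ 2 * n ^ 2 := by
    have : D ≤ D ^ 2 := by nlinarith
    gcongr
  have e3 : 0 < D ^ 2 * n ^ 2 := by positivity
  calc 2 * y * a * y = 2 * (a * y ^ 2) := by ring
    _ ≤ 2 * (D ^ 2 * n ^ 2) := by linarith
    _ ≤ (142 / 100 * D * n) ^ 2 := by
      have : (142 / 100 * D * n) ^ 2 = (20164 / 10000) * (D ^ 2 * n ^ 2) := by ring
      rw [this]
      linarith

theorem it2_alg1 {K D x y z n s sa b M ry : ℝ} (hK : 0 < K) (hD : 0 < D) (hx : 0 < x)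
    (hy : 0 < y) (hz : 0 < z) (hn : 0 < n) (hs : 0 < s) (hry : 0 < ry) (hsa0 : 0 ≤ sa)
    (hb0 : 0 ≤ b) (hsx : 18 * s * y ≤ x) (hsa : sa * ry ≤ (142 / 100) * D * n)
    (hb : b * z ^ 2 ≤ D * n ^ 2) (h1 : 227 * D ^ 3 * x ≤ K * (z * ry))
    (hM : M * (D * y * z) = K * n ^ 3) : (20 * 18 * s) * sa * b ≤ M * (143 / 1000) := by
  have h5 : 20 * 18 * s * y ≤ 20 * x := by linarith
  have hpos : 0 ≤ K * (z * ry) := by positivity
  have q0 : (142 / 5) * (D ^ 3 * x) ≤ (143 / 1000) * (K * (z * ry)) := by linarith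
  have q4 : ((20 * 18 * s) * sa * b) * (D * y * z * (z * ry)) ≤
      (M * (143 / 1000)) * (D * y * z * (z * ry)) := by
    calc ((20 * 18 * s) * sa * b) * (D * y * z * (z * ry))
        = (20 * 18 * s * y) * (sa * ry) * (b * z ^ 2) * D := by ring
      _ ≤ (20 * x) * ((142 / 100) * D * n) * (D * n ^ 2) * D := by gcongr
      _ = (142 / 5) * (D ^ 3 * x) * n ^ 3 := by ring
      _ ≤ (143 / 1000) * (K * (z * ry)) * n ^ 3 := by gcongr
      _ = (K * n ^ 3) * (143 / 1000) * (z * ry) := by ring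
      _ = (M * (D * y * z)) * (143 / 1000) * (z * ry) := by rw [hM]
      _ = _ := by ring
  exact le_of_mul_le_mul_right q4 (by positivity)

theorem it2_alg2 {K D y z n sb a M rz : ℝ} (hK : 0 < K) (hD : 0 < D)
    (hy : 0 < y) (hz : 0 < z) (hn : 0 < n) (hrz : 0 < rz) (hrz2 : rz ^ 2 = z) (hsb0 : 0 ≤ sb)
    (ha0 : 0 ≤ a) (hsb : sb * rz ≤ (142 / 100) * D * n)
    (ha : a * y ^ 2 ≤ D * n ^ 2) (h2 : 34 * D ^ 3 * rz ≤ K * y)
    (hM : M * (D * y * z) = K * n ^ 3) : 3 * sb * a ≤ M * (143 / 1000) := by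
  have hpos : 0 ≤ K * y := by positivity
  have q0 : (426 / 100) * (D ^ 3 * rz) ≤ (143 / 1000) * (K * y) := by linarith
  have q4 : (3 * sb * a) * (D * y * z * y) ≤ (M * (143 / 1000)) * (D * y * z * y) := by
    calc (3 * sb * a) * (D * y * z * y)
        = (3 * (sb * rz) * (a * y ^ 2)) * (D * rz) := by
          rw [← hrz2]; ring
      _ ≤ (3 * ((142 / 100) * D * n) * (D * n ^ 2)) * (D * rz) := by gcongr
      _ = (426 / 100) * (D ^ 3 * rz) * n ^ 3 := by ring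
      _ ≤ (143 / 1000) * (K * y) * n ^ 3 := by gcongr
      _ = (K * n ^ 3) * (143 / 1000) * y := by ring
      _ = (M * (D * y * z)) * (143 / 1000) * y := by rw [hM]
      _ = _ := by ring
  exact le_of_mul_le_mul_right q4 (by positivity)

theorem it2_alg3 {K D x y z n s a M : ℝ} (hD : 0 < D) (hx : 0 < x)
    (hy : 0 < y) (hz : 0 < z) (hn : 0 < n) (hs : 0 < s)
    (ha0 : 0 ≤ a) (hsx : 18 * s * y ≤ x) (ha : a * y ^ 2 ≤ D * n ^ 2)
    (h3 : 64 * D ^ 2 * x * z ≤ K * n * y ^ 2)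
    (hM : M * (D * y * z) = K * n ^ 3) : 8 * (18 * s) * a ≤ M * (1 / 8) := by
  have q0 : 8 * (D ^ 2 * x * z) ≤ (1 / 8) * (K * n * y ^ 2) := by linarith
  have q4 : (8 * (18 * s) * a) * (D * y * z * y ^ 2) ≤ (M * (1 / 8)) * (D * y * z * y ^ 2) := by
    calc (8 * (18 * s) * a) * (D * y * z * y ^ 2)
        = (8 * (18 * s * y) * (a * y ^ 2)) * (D * z) := by ring
      _ ≤ (8 * x * (D * n ^ 2)) * (D * z) := by gcongr
      _ = 8 * (D ^ 2 * x * z) * n ^ 2 := by ring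
      _ ≤ (1 / 8) * (K * n * y ^ 2) * n ^ 2 := by gcongr
      _ = (K * n ^ 3) * (1 / 8) * y ^ 2 := by ring
      _ = (M * (D * y * z)) * (1 / 8) * y ^ 2 := by rw [hM]
      _ = _ := by ring
  exact le_of_mul_le_mul_right q4 (by positivity)

theorem it2_alg4 {M N N' NOv s sa b a sb : ℝ} (hs : 1 ≤ s) (hsa0 : 0 ≤ sa) (hb0 : 0 ≤ b)
    (hN : M ≤ N)
    (hNO : NOv ≤ 4 * (18 * s) * (N' + 2 * sa * b) + 4 * (18 * s) * a)
    (hAR : N ≤ 2 * NOv + 4 * sa * b + 3 * sb * a)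
    (e1 : (20 * 18 * s) * sa * b ≤ M * (143 / 1000)) (e2 : 3 * sb * a ≤ M * (143 / 1000))
    (e3 : 8 * (18 * s) * a ≤ M * (1 / 8)) : M * (589 / 1000) ≤ 8 * (18 * s) * N' := by
  have h0 : 0 ≤ sa * b := mul_nonneg hsa0 hb0
  have h1 : 4 * sa * b ≤ (4 * 18 * s) * sa * b := by
    have : (4 : ℝ) ≤ 4 * 18 * s := by linarith
    calc 4 * sa * b = 4 * (sa * b) := by ring
      _ ≤ (4 * 18 * s) * (sa * b) := by gcongr
      _ = _ := by ring
  have h2 : 2 * (4 * (18 * s) * (N' + 2 * sa * b) + 4 * (18 * s) * a) =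
    8 * (18 * s) * N' + (16 * 18 * s) * sa * b + 8 * (18 * s) * a := by ring
  have h3 : (16 * 18 * s) * sa * b + (4 * 18 * s) * sa * b = (20 * 18 * s) * sa * b := by ring
  linarith

theorem it2_alg5 {a x y s D n p : ℝ} (hx : 0 < x) (hs : 0 < s) (hD : 0 < D) (hn : 0 < n)
    (ha0 : 0 ≤ a) (hy : 0 < y) (hI2 : x ≤ 36 * s * y) (ha : a * y ^ 2 ≤ D * n ^ 2)
    (hp : p ≤ 14 * a / s ^ 2) : p ≤ 20000 * D * n ^ 2 / x ^ 2 := by
  refine hp.trans ?_
  rw [div_le_div_iff₀ (by positivity) (by positivity)]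
  have g1 : x ^ 2 ≤ (36 * s * y) ^ 2 := pow_le_pow_left₀ hx.le hI2 2
  have g2 : 0 ≤ D * n ^ 2 * s ^ 2 := by positivity
  calc 14 * a * x ^ 2 ≤ 14 * a * (36 * s * y) ^ 2 := by gcongr
    _ = 18144 * (a * y ^ 2) * s ^ 2 := by ring
    _ ≤ 18144 * (D * n ^ 2) * s ^ 2 := by gcongr
    _ ≤ 20000 * D * n ^ 2 * s ^ 2 := by linarith

theorem it2_alg6 {K D x y z n s N' M : ℝ} (hD : 0 < D) (hx : 0 < x)
    (hy : 0 < y) (hz : 0 < z) (hN'0 : 0 ≤ N')
    (hsx : 18 * s * y ≤ x) (hM : M * (D * y * z) = K * n ^ 3)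
    (h : M * (589 / 1000) ≤ 8 * (18 * s) * N') :
    K * n ^ 3 / (20000 * D * z * x) ≤ N' := by
  rw [div_le_iff₀ (by positivity)]
  have g2 : K * n ^ 3 * (589 / 1000) ≤ 8 * (18 * s * y) * N' * (D * z) := by
    calc K * n ^ 3 * (589 / 1000) = (M * (589 / 1000)) * (D * y * z) := by rw [← hM]; ring
      _ ≤ (8 * (18 * s) * N') * (D * y * z) := by gcongr
      _ = _ := by ring
  have g3 : 8 * (18 * s * y) * N' * (D * z) ≤ 8 * x * N' * (D * z) := by gcongr
  have g4 : 0 ≤ N' * (D * z * x) := by positivity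
  have g5 : 8 * x * N' * (D * z) = 8 * (N' * (D * z * x)) := by ring
  have g6 : N' * (20000 * D * z * x) = 20000 * (N' * (D * z * x)) := by ring
  rw [g6]
  linarith

/-- one step -/
theorem it2_step (hsym : SYM) (harms : ARMS) (href : REF2) (P : Finset Pl) (hP : 1 ≤ P.card)
    {K D y z x : ℝ} (hK : 0 < K) (hD : 1 ≤ D) (hy : 1 ≤ y) (hz : 1 ≤ z) {χ ψ : Pl → ℕ}
    (hst : St P K D y z χ ψ) (h0 : 36 * y ≤ x)
    (h1 : 227 * D ^ 3 * x ≤ K * (z * Real.sqrt y)) (h2 : 34 * D ^ 3 * Real.sqrt z ≤ K * y)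
    (h3 : 64 * D ^ 2 * x * z ≤ K * P.card * y ^ 2) :
    ∃ χ', St P K (20000 * D) z x ψ χ' := by
  obtain ⟨ha, hcy, hb, hcz, hN⟩ := hst
  have hn1 : (1 : ℝ) ≤ P.card := by exact_mod_cast hP
  have hn0 : (0 : ℝ) < P.card := by linarith
  have hD0 : 0 < D := by linarith
  have hy0 : 0 < y := by linarith
  have hz0 : 0 < z := by linarith
  have hx0 : 0 < x := by linarith
  -- choice of `I`
  have hx : 1 ≤ x / (18 * y) := by
    rw [le_div_iff₀ (by positivity)]; linarith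
  obtain ⟨I, hI1, hI2⟩ := exists_nat_pow_near hx (one_lt_two)
  have hI : 1 ≤ I := by
    by_contra hcon
    have h0' : I = 0 := by omega
    rw [h0', zero_add, pow_one, div_lt_iff₀ (by positivity)] at hI2
    linarith
  rw [le_div_iff₀ (by positivity)] at hI1
  rw [div_lt_iff₀ (by positivity), pow_succ] at hI2
  have hs1 : (1 : ℝ) ≤ 2 ^ I := one_le_pow₀ (by norm_num)
  have hs0 : (0 : ℝ) < 2 ^ I := by linarith
  have h4I : (4 : ℝ) ^ I = (2 ^ I) ^ 2 := by
    rw [← pow_mul, mul_comm I 2, pow_mul]; norm_num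
  obtain ⟨χ', hp, hcr, hNO⟩ := href P ψ χ y I hI hcy
  rw [h4I] at hp
  have hAR := harms P ψ χ z y hcz hcy
  rw [iter_comm hsym P ψ χ] at hAR
  have ha0 : (0 : ℝ) ≤ prs P χ := Nat.cast_nonneg _
  have hb0 : (0 : ℝ) ≤ prs P ψ := Nat.cast_nonneg _
  have hN'0 : (0 : ℝ) ≤ NN P ψ χ' := Nat.cast_nonneg _
  have ha' : (prs P χ : ℝ) * y ^ 2 ≤ D * (P.card : ℝ) ^ 2 := by
    rw [le_div_iff₀ (by positivity)] at ha; exact ha
  have hb' : (prs P ψ : ℝ) * z ^ 2 ≤ D * (P.card : ℝ) ^ 2 := by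
    rw [le_div_iff₀ (by positivity)] at hb; exact hb
  have hMeq : K * (P.card : ℝ) ^ 3 / (D * y * z) * (D * y * z) = K * (P.card : ℝ) ^ 3 :=
    div_mul_cancel₀ _ (by positivity)
  have hsx : 18 * 2 ^ I * y ≤ x := by linarith
  have hx36 : x ≤ 36 * 2 ^ I * y := by linarith
  have e1 := it2_alg1 hK hD0 hx0 hy0 hz0 hn0 hs0 (Real.sqrt_pos.2 hy0) (Real.sqrt_nonneg _) hb0
    hsx (it2_sqrt hn0 hD hy0 ha0 ha') hb' h1 hMeq
  have e2 := it2_alg2 hK hD0 hy0 hz0 hn0 (Real.sqrt_pos.2 hz0) (Real.sq_sqrt hz0.le)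
    (Real.sqrt_nonneg _) ha0 (it2_sqrt hn0 hD hz0 hb0 hb') ha' h2 hMeq
  have e3 := it2_alg3 hD0 hx0 hy0 hz0 hn0 hs0 ha0 hsx ha' h3 hMeq
  have hmain := it2_alg4 hs1 (Real.sqrt_nonneg _) hb0 hN hNO hAR e1 e2 e3
  refine ⟨χ', ?_, hcz, it2_alg5 hx0 hs0 hD0 hn0 ha0 hy0 hx36 ha' hp, hcr.mono (by linarith),
    it2_alg6 hD0 hx0 hy0 hz0 hN'0 hsx hMeq hmain⟩
  refine hb.trans ?_
  gcongr
  linarith

/-- the end -/
theorem it2_end (hend : END) (P : Finset Pl) (hP : 1 ≤ P.card) {K D y z : ℝ} (hK : 1 ≤ K)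
    (hD : 1 ≤ D) (hy : 1 ≤ y) (hz : 1 ≤ z) {χ ψ : Pl → ℕ} (hst : St P K D y z χ ψ)
    (h1 : 10 * P.card * D ^ 5 < z ^ 2) (h2 : 4 * D ^ 5 < y ^ 2) : False := by
  obtain ⟨ha, _, hb, _, hN⟩ := hst
  have hn1 : (1 : ℝ) ≤ P.card := by exact_mod_cast hP
  have hE : ((NN P χ ψ : ℕ) : ℝ) ^ 2 ≤ prs P χ * (5 * P.card * (prs P ψ) ^ 2 +
      2 * prs P ψ * prs P χ) := by exact_mod_cast hend P χ ψ
  set n : ℝ := (P.card : ℝ) with hn
  have hn0 : 0 < n := by linarith
  have hD0 : 0 < D := by linarith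
  have hy0 : 0 < y := by linarith
  have hz0 : 0 < z := by linarith
  set a : ℝ := (prs P χ : ℝ) with hadef
  set b : ℝ := (prs P ψ : ℝ) with hbdef
  have ha0 : 0 ≤ a := Nat.cast_nonneg _
  have hb0 : 0 ≤ b := Nat.cast_nonneg _
  have h3 : (K * n ^ 3 / (D * y * z)) ^ 2 ≤ ((NN P χ ψ : ℕ) : ℝ) ^ 2 :=
    pow_le_pow_left₀ (by positivity) hN 2
  have h4 : a * (5 * n * b ^ 2 + 2 * b * a) ≤ (D * n ^ 2 / y ^ 2) *
      (5 * n * (D * n ^ 2 / z ^ 2) ^ 2 + 2 * (D * n ^ 2 / z ^ 2) * (D * n ^ 2 / y ^ 2)) := by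
    gcongr
  have h5 : (n ^ 3 / (D * y * z)) ^ 2 ≤ (K * n ^ 3 / (D * y * z)) ^ 2 := by
    refine pow_le_pow_left₀ (by positivity) ?_ 2
    gcongr
    nlinarith [pow_pos hn0 3]
  have h6 := h5.trans (h3.trans (hE.trans h4))
  have h7 : (n ^ 3 / (D * y * z)) ^ 2 = n ^ 6 / (y ^ 2 * z ^ 2) * (1 / D ^ 2) := by
    field_simp
  have h8 : (D * n ^ 2 / y ^ 2) *
      (5 * n * (D * n ^ 2 / z ^ 2) ^ 2 + 2 * (D * n ^ 2 / z ^ 2) * (D * n ^ 2 / y ^ 2)) =
      n ^ 6 / (y ^ 2 * z ^ 2) * (D ^ 3 * (5 * n / z ^ 2 + 2 / y ^ 2)) := by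
    field_simp
  rw [h7, h8] at h6
  have h9 : 1 / D ^ 2 ≤ D ^ 3 * (5 * n / z ^ 2 + 2 / y ^ 2) :=
    le_of_mul_le_mul_left h6 (by positivity)
  have g1 : 5 * n / z ^ 2 * D ^ 5 < 1 / 2 := by
    rw [div_mul_eq_mul_div, div_lt_iff₀ (by positivity)]
    linarith
  have g2 : 2 / y ^ 2 * D ^ 5 < 1 / 2 := by
    rw [div_mul_eq_mul_div, div_lt_iff₀ (by positivity)]
    linarith
  have g3 : 1 ≤ D ^ 2 * (D ^ 3 * (5 * n / z ^ 2 + 2 / y ^ 2)) := by
    have := mul_le_mul_of_nonneg_left h9 (by positivity : (0 : ℝ) ≤ D ^ 2)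
    rwa [mul_one_div_cancel (by positivity)] at this
  have g4 : D ^ 2 * (D ^ 3 * (5 * n / z ^ 2 + 2 / y ^ 2)) =
      5 * n / z ^ 2 * D ^ 5 + 2 / y ^ 2 * D ^ 5 := by ring
  linarith

/-! ### the scales -/

/-- exponents of the scales -/
noncomputable def gg (i : ℕ) : ℝ := 1000 * (5 / 4) ^ i

theorem it2_gg_succ (i : ℕ) : gg (i + 1) = 5 / 4 * gg i := by
  unfold gg; rw [pow_succ]; ring

theorem it2_gg_ge (i : ℕ) : 1000 * (1 + (i : ℝ) / 4) ≤ gg i := by
  unfold gg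
  have h := one_add_mul_le_pow (a := (1 / 4 : ℝ)) (by norm_num) i
  have h2 : (1 + 1 / 4 : ℝ) = 5 / 4 := by norm_num
  rw [h2] at h
  linarith

theorem it2_key (i : ℕ) :
    227 * ((20000 : ℝ) ^ (i + 1)) ^ 3 ≤ Real.exp (3 / 16 * gg i) := by
  have h2 : (2.7 : ℝ) ≤ Real.exp 1 := by
    have := Real.exp_one_gt_d9
    linarith
  have e1 : (20000 : ℝ) ≤ Real.exp 10 := by
    have h3 : (2.7 : ℝ) ^ 10 ≤ Real.exp 1 ^ 10 := pow_le_pow_left₀ (by norm_num) h2 10
    have h4 : Real.exp 1 ^ 10 = Real.exp 10 := by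
      rw [← Real.exp_nat_mul]; norm_num
    rw [← h4]
    refine le_trans ?_ h3
    norm_num
  have e2 : (227 : ℝ) ≤ Real.exp 6 := by
    have h3 : (2.7 : ℝ) ^ 6 ≤ Real.exp 1 ^ 6 := pow_le_pow_left₀ (by norm_num) h2 6
    have h4 : Real.exp 1 ^ 6 = Real.exp 6 := by
      rw [← Real.exp_nat_mul]; norm_num
    rw [← h4]
    refine le_trans ?_ h3
    norm_num
  have e3 : ((20000 : ℝ) ^ (i + 1)) ^ 3 ≤ Real.exp (30 * (i + 1)) := by
    rw [← pow_mul]
    calc (20000 : ℝ) ^ ((i + 1) * 3) ≤ Real.exp 10 ^ ((i + 1) * 3) :=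
          pow_le_pow_left₀ (by norm_num) e1 _
      _ = Real.exp (30 * (i + 1)) := by
          rw [← Real.exp_nat_mul]; push_cast; ring_nf
  calc 227 * ((20000 : ℝ) ^ (i + 1)) ^ 3 ≤ Real.exp 6 * Real.exp (30 * (i + 1)) := by gcongr
    _ = Real.exp (6 + 30 * (i + 1)) := by rw [Real.exp_add]
    _ ≤ Real.exp (3 / 16 * gg i) := by
        refine Real.exp_le_exp.2 ?_
        have := it2_gg_ge i
        have h0 : (0 : ℝ) ≤ i := Nat.cast_nonneg i
        linarith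

theorem it2_K {E1 E2 K : ℝ} (h1 : 1 ≤ E1) (h2 : 1 ≤ E2) (hK : K = 227 * 20000 ^ 3 * E2 * E1) :
    227 * E1 ≤ K ∧ 100 ≤ K ∧ 227 * 20000 ^ 3 * E2 ≤ K ∧ 34 * 20000 ^ 3 * E1 ≤ K ∧
      64 * 20000 ^ 2 * (E2 * E1) ≤ K ∧ 64 * E1 ≤ K := by
  have a1 : E1 ≤ E2 * E1 := le_mul_of_one_le_left (by linarith) h2
  have a2 : E2 ≤ E2 * E1 := le_mul_of_one_le_right (by linarith) h1
  have hK' : K = 227 * 20000 ^ 3 * (E2 * E1) := by rw [hK]; ring
  generalize E2 * E1 = p at a1 a2 hK'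
  norm_num at hK'
  refine ⟨?_, ?_, ?_, ?_, ?_, ?_⟩ <;> norm_num <;> linarith

theorem it2_n1 {K n a : ℝ} (hK0 : 0 < K) (hn : 1 ≤ n) (h : a ≤ K) : a ≤ K * n :=
  h.trans (le_mul_of_one_le_right hK0.le hn)

theorem it2 : ITER2 := by
  intro hsym harms href hstart hend
  -- `zz i = exp (gg i)`
  set K : ℝ := 227 * 20000 ^ 3 * Real.exp (gg 2) * Real.exp (gg 1) with hKdef
  have hz1 : 1 ≤ Real.exp (gg 1) := Real.one_le_exp (by unfold gg; positivity)
  have hz2 : 1 ≤ Real.exp (gg 2) := Real.one_le_exp (by unfold gg; positivity)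
  obtain ⟨hKa, hK100, hKb, hKc, hKd, hKe⟩ := it2_K hz1 hz2 hKdef
  have hK1 : 1 ≤ K := by linarith
  have hK0 : 0 < K := by linarith
  refine ⟨1 / (2 * K + 8), by positivity, fun P hP => ?_⟩
  by_contra hcon
  push Not at hcon
  have hn : (3 : ℝ) ≤ P.card := by exact_mod_cast hP
  set n : ℝ := (P.card : ℝ) with hnd
  set t : ℝ := ((perims P).card : ℝ) with htd
  have hn0 : 0 < n := by linarith
  have ht1 : 1 ≤ t := by
    have : 0 < (perims P).card := by
      obtain ⟨x, hx, y, hy, z, hz, hxy, hxz, hyz⟩ := Finset.two_lt_card.1 hP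
      refine card_pos.2 ⟨pr x y z, mem_image.2 ⟨(x, y, z), ?_, rfl⟩⟩
      simp [hx, hy, hz, hxy, hxz, hyz]
    rw [htd]; exact_mod_cast this
  have htK : t * (2 * K + 8) < n := by
    rw [one_div, inv_mul_eq_div, lt_div_iff₀ (by positivity)] at hcon
    exact hcon
  clear_value K
  have hP9 : 9 ≤ P.card := by
    have : (9 : ℝ) ≤ P.card := by rw [← hnd]; nlinarith
    exact_mod_cast this
  have h4 : 4 * ((perims P).card + 2) ≤ P.card := by
    have : 4 * (t + 2) ≤ n := by nlinarith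
    rw [htd, hnd] at this
    exact_mod_cast this
  -- start
  have hS := hstart P hP9 h4
  have hS' : n ^ 4 ≤ 2 * t * (NN P (fun _ => 0) (fun _ => 0) + 4 * n ^ 3) := by
    rw [hnd, htd]; exact_mod_cast hS
  have hNN : K * n ^ 3 ≤ NN P (fun _ => 0) (fun _ => 0) := by
    by_contra hc
    push Not at hc
    have g1 : 2 * t * ((NN P (fun _ => 0) (fun _ => 0) : ℝ) + 4 * n ^ 3) <
        2 * t * (K * n ^ 3 + 4 * n ^ 3) := by
      have : 0 < 2 * t := by linarith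
      exact mul_lt_mul_of_pos_left (by linarith) this
    have g2 : 2 * t * (K * n ^ 3 + 4 * n ^ 3) = (t * (2 * K + 8)) * n ^ 3 := by ring
    have g3 : (t * (2 * K + 8)) * n ^ 3 ≤ n * n ^ 3 := by gcongr
    have g4 : n * n ^ 3 = n ^ 4 := by ring
    linarith
  have hprs : prs P (fun _ => 0) ≤ P.card ^ 2 := by
    unfold prs
    refine (card_filter_le _ _).trans ?_
    rw [offDiag_card, sq]
    exact Nat.sub_le _ _
  have hprs' : (prs P (fun _ => 0) : ℝ) ≤ n ^ 2 := by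
    rw [hnd]; exact_mod_cast hprs
  have hcr0 : CrLe P (fun _ => 0) 1 := by
    intro u v w _
    have : (sepcol P (fun _ => 0) u v w).card ≤ 1 := by
      rw [card_le_one]
      intro a ha b hb
      unfold sepcol at ha hb
      obtain ⟨_, _, rfl⟩ := mem_image.1 ha
      obtain ⟨_, _, rfl⟩ := mem_image.1 hb
      rfl
    exact_mod_cast this
  have st0 : St P K 1 1 1 (fun _ => 0) (fun _ => 0) := by
    refine ⟨?_, hcr0, ?_, hcr0, ?_⟩
    · rw [← hnd]; simpa using hprs'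
    · rw [← hnd]; simpa using hprs'
    · rw [← hnd]; simpa using hNN
  have hP1 : 1 ≤ P.card := by omega
  have hexp36 : (36 : ℝ) ≤ Real.exp (gg 1) := by
    have h5 : gg 1 + 1 ≤ Real.exp (gg 1) := Real.add_one_le_exp _
    have h6 := it2_gg_ge 1
    push_cast at h6
    linarith
  have hexp36' : (36 : ℝ) ≤ Real.exp (gg 2) := by
    have h5 : gg 2 + 1 ≤ Real.exp (gg 2) := Real.add_one_le_exp _
    have h6 := it2_gg_ge 2
    push_cast at h6
    linarith
  have hn1 : (1 : ℝ) ≤ n := by linarith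
  -- first step
  obtain ⟨χ1, st1⟩ := it2_step hsym harms href P hP1 hK0 le_rfl le_rfl le_rfl st0
    (x := Real.exp (gg 1)) (by linarith) (by
      rw [Real.sqrt_one, one_pow, mul_one, mul_one, mul_one]
      exact hKa) (by
      rw [Real.sqrt_one, one_pow, mul_one, mul_one, mul_one]
      linarith) (by
      rw [← hnd, one_pow, mul_one, mul_one, mul_one]
      exact it2_n1 hK0 hn1 hKe)
  rw [mul_one] at st1
  -- second step
  have hsq : Real.sqrt (Real.exp (gg 1)) ≤ Real.exp (gg 1) := by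
    rw [Real.sqrt_le_left (by positivity)]
    exact le_self_pow₀ hz1 (by norm_num)
  obtain ⟨χ2, st2⟩ := it2_step hsym harms href P hP1 hK0 (by norm_num) le_rfl hz1 st1
    (x := Real.exp (gg 2)) (by linarith) (by
      rw [Real.sqrt_one, mul_one]
      exact it2_n1 hK0 hz1 hKb) (by
      rw [mul_one]
      refine le_trans ?_ hKc
      gcongr) (by
      rw [← hnd, one_pow, mul_one, mul_assoc]
      exact it2_n1 hK0 hn1 hKd)
  -- all states
  have hD : ∀ i : ℕ, (1 : ℝ) ≤ 20000 ^ (i + 1) := fun i => one_le_pow₀ (by norm_num)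
  have hzz : ∀ i : ℕ, 1 ≤ Real.exp (gg i) := fun i => Real.one_le_exp (by unfold gg; positivity)
  -- a state gives a lower bound for `n`
  have hbound : ∀ (i : ℕ) (χ ψ : Pl → ℕ),
      St P K (20000 ^ (i + 1)) (Real.exp (gg i)) (Real.exp (gg (i + 1))) χ ψ →
      Real.exp (2 * gg i) ≤ n := by
    intro i χ ψ hst
    have hkey := it2_key i
    set D : ℝ := 20000 ^ (i + 1) with hDdef
    have hD1 : 1 ≤ D := hD i
    set g : ℝ := gg i with hg
    have hg0 : 0 < g := by rw [hg]; unfold gg; positivity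
    have hD5 : 4 * D ^ 5 ≤ (227 * D ^ 3) ^ 2 := by
      have : D ^ 5 ≤ D ^ 6 := pow_le_pow_right₀ hD1 (by norm_num)
      nlinarith [pow_pos (by linarith : (0 : ℝ) < D) 6]
    have hD5' : (227 * D ^ 3) ^ 2 ≤ Real.exp (3 / 8 * g) := by
      calc (227 * D ^ 3) ^ 2 ≤ Real.exp (3 / 16 * g) ^ 2 :=
            pow_le_pow_left₀ (by positivity) hkey 2
        _ = Real.exp (3 / 8 * g) := by rw [← Real.exp_nat_mul]; congr 1; push_cast; ring
    have h2 : 4 * D ^ 5 < Real.exp g ^ 2 := by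
      refine lt_of_le_of_lt (hD5.trans hD5') ?_
      rw [← Real.exp_nat_mul]
      refine Real.exp_lt_exp.2 ?_
      push_cast
      linarith
    by_contra hlt
    push Not at hlt
    refine it2_end hend P hP1 hK1 hD1 (hzz i) (hzz (i + 1)) hst ?_ h2
    rw [← hnd, it2_gg_succ, ← hg, ← Real.exp_nat_mul]
    have h3 : 10 * D ^ 5 ≤ (227 * D ^ 3) ^ 2 := by
      have : D ^ 5 ≤ D ^ 6 := pow_le_pow_right₀ hD1 (by norm_num)
      nlinarith [pow_pos (by linarith : (0 : ℝ) < D) 6]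
    calc 10 * n * D ^ 5 = n * (10 * D ^ 5) := by ring
      _ ≤ n * Real.exp (3 / 8 * g) := by
          have := h3.trans hD5'
          gcongr
      _ < Real.exp (2 * g) * Real.exp (3 / 8 * g) :=
          mul_lt_mul_of_pos_right hlt (Real.exp_pos _)
      _ = Real.exp (2 * g + 3 / 8 * g) := by rw [Real.exp_add]
      _ ≤ Real.exp (((2 : ℕ) : ℝ) * (5 / 4 * g)) := by
          refine Real.exp_le_exp.2 ?_
          push_cast
          linarith
  have hall : ∀ i : ℕ, ∃ χ ψ : Pl → ℕ,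
      St P K (20000 ^ (i + 1 + 1)) (Real.exp (gg (i + 1))) (Real.exp (gg (i + 1 + 1))) χ ψ := by
    intro i
    induction i with
    | zero =>
      refine ⟨χ1, χ2, ?_⟩
      have : (20000 : ℝ) * 20000 = 20000 ^ (0 + 1 + 1) := by norm_num
      rw [← this]
      exact st2
    | succ i ih =>
      obtain ⟨χ, ψ, hst⟩ := ih
      have hnb := hbound (i + 1) χ ψ hst
      have hkey := it2_key (i + 1)
      set D : ℝ := 20000 ^ (i + 1 + 1) with hDdef
      have hD1 : 1 ≤ D := hD (i + 1)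
      have hD0 : 0 < D := by linarith
      set g : ℝ := gg (i + 1) with hg
      have hg0 : 0 < g := by rw [hg]; unfold gg; positivity
      have hg1000 : 1000 ≤ g := by
        have := it2_gg_ge (i + 1)
        rw [← hg] at this
        have h0 : (0 : ℝ) ≤ ((i + 1 : ℕ) : ℝ) := Nat.cast_nonneg _
        linarith
      have hs1 : gg (i + 1 + 1) = 5 / 4 * g := it2_gg_succ (i + 1)
      have hs2 : gg (i + 1 + 1 + 1) = 25 / 16 * g := by
        rw [it2_gg_succ, hs1]; ring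
      have hsqrt1 : Real.sqrt (Real.exp g) = Real.exp (g / 2) := by
        rw [Real.sqrt_eq_iff_mul_self_eq (by positivity) (by positivity), ← Real.exp_add]
        congr 1; ring
      have hsqrt2 : Real.sqrt (Real.exp (5 / 4 * g)) = Real.exp (5 / 8 * g) := by
        rw [Real.sqrt_eq_iff_mul_self_eq (by positivity) (by positivity), ← Real.exp_add]
        congr 1; ring
      obtain ⟨χ', hst'⟩ := it2_step hsym harms href P hP1 hK0 hD1 (hzz (i + 1))
        (hzz (i + 1 + 1)) hst (x := Real.exp (gg (i + 1 + 1 + 1))) (by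
          rw [← hg, hs2]
          have g1 : (36 : ℝ) ≤ Real.exp (9 / 16 * g) := by
            have := Real.add_one_le_exp (9 / 16 * g)
            linarith
          calc 36 * Real.exp g ≤ Real.exp (9 / 16 * g) * Real.exp g := by gcongr
            _ = Real.exp (25 / 16 * g) := by rw [← Real.exp_add]; congr 1; ring) (by
          rw [← hg, hs2, hs1, hsqrt1]
          calc 227 * D ^ 3 * Real.exp (25 / 16 * g)
              ≤ Real.exp (3 / 16 * g) * Real.exp (25 / 16 * g) := by gcongr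
            _ = Real.exp (5 / 4 * g) * Real.exp (g / 2) := by
                rw [← Real.exp_add, ← Real.exp_add]; congr 1; ring
            _ ≤ K * (Real.exp (5 / 4 * g) * Real.exp (g / 2)) :=
                le_mul_of_one_le_left (by positivity) hK1) (by
          rw [← hg, hs1, hsqrt2]
          calc 34 * D ^ 3 * Real.exp (5 / 8 * g)
              ≤ Real.exp (3 / 16 * g) * Real.exp (5 / 8 * g) := by
                have : 34 * D ^ 3 ≤ 227 * D ^ 3 := by
                  have : 0 < D ^ 3 := by positivity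
                  linarith
                have := this.trans hkey
                gcongr
            _ = Real.exp (13 / 16 * g) := by
                rw [← Real.exp_add]; congr 1; ring
            _ ≤ Real.exp g := Real.exp_le_exp.2 (by linarith)
            _ ≤ K * Real.exp g := le_mul_of_one_le_left (by positivity) hK1) (by
          rw [← hg, hs2, hs1, ← hnd]
          have g1 : 64 * D ^ 2 ≤ Real.exp (3 / 16 * g) := by
            refine le_trans ?_ hkey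
            have : D ^ 2 ≤ D ^ 3 := pow_le_pow_right₀ hD1 (by norm_num)
            nlinarith [pow_pos hD0 3]
          calc 64 * D ^ 2 * Real.exp (25 / 16 * g) * Real.exp (5 / 4 * g)
              ≤ Real.exp (3 / 16 * g) * Real.exp (25 / 16 * g) * Real.exp (5 / 4 * g) := by
                gcongr
            _ = Real.exp g * Real.exp g ^ 2 := by
                rw [← Real.exp_nat_mul, ← Real.exp_add, ← Real.exp_add, ← Real.exp_add]
                congr 1; push_cast; ring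
            _ ≤ n * Real.exp g ^ 2 := by
                have : Real.exp g ≤ n := by
                  refine le_trans (Real.exp_le_exp.2 ?_) hnb
                  linarith
                gcongr
            _ ≤ K * n * Real.exp g ^ 2 := by
                have : n ≤ K * n := le_mul_of_one_le_left hn0.le hK1
                gcongr)
      refine ⟨ψ, χ', ?_⟩
      have : (20000 : ℝ) * D = 20000 ^ (i + 1 + 1 + 1) := by
        rw [hDdef, pow_succ (20000 : ℝ) (i + 1 + 1)]; ring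
      rw [← this]
      exact hst'
  -- contradiction
  obtain ⟨i, hi⟩ := exists_nat_gt n
  obtain ⟨χ, ψ, hst⟩ := hall i
  have h5 := hbound (i + 1) χ ψ hst
  have h6 := it2_gg_ge (i + 1)
  have h7 := Real.add_one_le_exp (2 * gg (i + 1))
  push_cast at h6
  have h0 : (0 : ℝ) ≤ (i : ℝ) := Nat.cast_nonneg _
  linarith

end Pool.Agent.H62.Per
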